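import Pool.Agent.W852.BL.Cut

/-!
# Assembly
-/

set_option autoImplicit false

namespace Pool.Agent.W852.BL

open Finset Real
open scoped Classical

noncomputable section

variable {n K l : ℕ}

/-- the vertices of two classes -/
def VV (σ : Fin n → Fin (K + 1)) (p : Fin (K + 1) × Fin (K + 1)) : Finset (Fin n) :=
  univ.filter (fun v => σ v = p.1 ∨ σ v = p.2)

theorem card_VV {σ : Fin n → Fin (K + 1)} (hσ : σ ∈ Bal n K l) (p : Fin (K + 1) × Fin (K + 1)) :
    (VV σ p).card ≤ 2 * l := by
  have h1 := mem_Bal.1 hσ p.1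
  have h2 := mem_Bal.1 hσ p.2
  unfold cls at h1 h2
  have h3 : VV σ p = univ.filter (fun v => σ v = p.1) ∪ univ.filter (fun v => σ v = p.2) := by
    ext v; simp [VV]
  rw [h3]
  refine (card_union_le _ _).trans ?_
  rw [two_mul]
  apply add_le_add
  · refine le_of_eq ?_
    rw [← h1]
  · refine le_of_eq ?_
    rw [← h2]

/-- the conditions for a large cut -/
def condD (σ : Fin n → Fin (K + 1)) (l : ℕ) (p : Fin (K + 1) × Fin (K + 1))
    (q : Finset (Fin n) × Finset (Fin n)) : Prop :=
  p.1 ≠ p.2 ∧ Disjoint q.1 q.2 ∧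
    8 * l ≤ 10 * (univ.filter (fun v => v ∈ q.1 ∪ q.2 ∧ σ v = p.1)).card ∧
    8 * l ≤ 10 * (univ.filter (fun v => v ∈ q.1 ∪ q.2 ∧ σ v = p.2)).card ∧
    l ≤ 10 * q.1.card ∧ l ≤ 10 * q.2.card

/-- the pairs of a cut -/
def rD (σ : Fin n → Fin (K + 1)) (q : Finset (Fin n) × Finset (Fin n)) (v w : Fin n) : Prop :=
  v ∈ q.1 ∧ w ∈ q.2 ∧ σ v ≠ σ w

theorem count_D {σ : Fin n → Fin (K + 1)} {p : Fin (K + 1) × Fin (K + 1)}
    {q : Finset (Fin n) × Finset (Fin n)} (hc : condD σ l p q)
    (h1 : q.1 ⊆ VV σ p) (h2 : q.2 ⊆ VV σ p) :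
    (l : ℝ) ^ 2 / 100 ≤ ((univ.filter (fun x : Fin n × Fin n => rD σ q x.1 x.2)).card : ℝ) := by
  obtain ⟨S, T⟩ := q
  obtain ⟨i, j⟩ := p
  obtain ⟨hij, hdis, g1, g2, g3, g4⟩ := hc
  simp only at hij hdis g1 g2 g3 g4 h1 h2
  set a := S.filter (fun v => σ v = i) with ha
  set b := S.filter (fun v => σ v = j) with hb
  set c := T.filter (fun v => σ v = i) with hc
  set d := T.filter (fun v => σ v = j) with hd
  have hS : S.card ≤ a.card + b.card := by
    rw [← card_union_of_disjoint]
    · apply card_le_card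
      intro v hv
      have := h1 hv
      unfold VV at this
      rw [mem_filter] at this
      rw [mem_union, ha, hb, mem_filter, mem_filter]
      rcases this.2 with h | h
      · exact Or.inl ⟨hv, h⟩
      · exact Or.inr ⟨hv, h⟩
    · rw [disjoint_left]
      intro v hv hv'
      rw [ha, mem_filter] at hv
      rw [hb, mem_filter] at hv'
      exact hij (hv.2.symm.trans hv'.2)
  have hT : T.card ≤ c.card + d.card := by
    rw [← card_union_of_disjoint]
    · apply card_le_card
      intro v hv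
      have := h2 hv
      unfold VV at this
      rw [mem_filter] at this
      rw [mem_union, hc, hd, mem_filter, mem_filter]
      rcases this.2 with h | h
      · exact Or.inl ⟨hv, h⟩
      · exact Or.inr ⟨hv, h⟩
    · rw [disjoint_left]
      intro v hv hv'
      rw [hc, mem_filter] at hv
      rw [hd, mem_filter] at hv'
      exact hij (hv.2.symm.trans hv'.2)
  have hi : (univ.filter (fun v => v ∈ S ∪ T ∧ σ v = i)).card ≤ a.card + c.card := by
    refine le_trans (card_le_card ?_) (card_union_le _ _)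
    intro v hv
    rw [mem_filter, mem_union] at hv
    rw [mem_union, ha, hc, mem_filter, mem_filter]
    rcases hv.2.1 with h | h
    · exact Or.inl ⟨h, hv.2.2⟩
    · exact Or.inr ⟨h, hv.2.2⟩
  have hj : (univ.filter (fun v => v ∈ S ∪ T ∧ σ v = j)).card ≤ b.card + d.card := by
    refine le_trans (card_le_card ?_) (card_union_le _ _)
    intro v hv
    rw [mem_filter, mem_union] at hv
    rw [mem_union, hb, hd, mem_filter, mem_filter]
    rcases hv.2.1 with h | h
    · exact Or.inl ⟨h, hv.2.2⟩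
    · exact Or.inr ⟨h, hv.2.2⟩
  have hcount : a.card * d.card + b.card * c.card ≤
      (univ.filter (fun x : Fin n × Fin n => rD σ (S, T) x.1 x.2)).card := by
    rw [← card_product, ← card_product, ← card_union_of_disjoint]
    · apply card_le_card
      rintro ⟨v, w⟩ hx
      rw [mem_union, mem_product, mem_product, ha, hb, hc, hd, mem_filter, mem_filter, mem_filter,
        mem_filter] at hx
      rw [mem_filter]
      refine ⟨mem_univ _, ?_⟩
      rcases hx with ⟨⟨x1, x2⟩, x3, x4⟩ | ⟨⟨x1, x2⟩, x3, x4⟩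
      · exact ⟨x1, x3, fun h => hij (x2.symm.trans (h.trans x4))⟩
      · exact ⟨x1, x3, fun h => hij (x4.symm.trans (h.symm.trans x2))⟩
    · rw [disjoint_left]
      rintro ⟨v, w⟩ hx hx'
      rw [mem_product, ha, mem_filter] at hx
      rw [mem_product, hb, mem_filter] at hx'
      exact hij (hx.1.2.symm.trans hx'.1.2)
  have hfin := cut_bound (l := (l : ℝ)) (a := (a.card : ℝ)) (b := (b.card : ℝ)) (c := (c.card : ℝ))
    (d := (d.card : ℝ)) (by positivity) (by positivity) (by positivity) (by positivity)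
    (by positivity) (by exact_mod_cast (by omega : 8 * l ≤ 10 * (a.card + c.card)))
    (by exact_mod_cast (by omega : 8 * l ≤ 10 * (b.card + d.card)))
    (by exact_mod_cast (by omega : l ≤ 10 * (a.card + b.card)))
    (by exact_mod_cast (by omega : l ≤ 10 * (c.card + d.card)))
  refine hfin.trans ?_
  exact_mod_cast hcount

/-- the good event -/
def goodE (σ : Fin n → Fin (K + 1)) (l m0 m : ℕ) (e : Fin (n.choose 2) ≃ Om n) : Prop :=
  e ∈ avd (fun _ => Fm σ) m ∧
  (∀ φ ∈ PhB σ l, ¬ e ∈ avd (fun _ => PX (rB σ φ)) m0) ∧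
  (∀ p : Fin (K + 1) × Fin (K + 1), ∀ q ∈ (VV σ p).powerset ×ˢ (VV σ p).powerset,
    condD σ l p q → ¬ e ∈ avd (fun _ => PX (rD σ q)) m0)

theorem pr_or {Ω : Type} [Fintype Ω] {N : ℕ} (A B : (Fin N ≃ Ω) → Prop) :
    pr (fun e => A e ∨ B e) ≤ pr A + pr B := by
  have h := pr_union (univ : Finset Bool) (fun b e => if b then A e else B e)
  rw [Fintype.sum_bool] at h
  refine le_trans (pr_mono ?_) (h.trans (le_of_eq ?_))
  · rintro e (h | h)
    · exact ⟨true, mem_univ _, by simpa using h⟩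
    · exact ⟨false, mem_univ _, by simpa using h⟩
  · simp

theorem pr_half {σ : Fin n → Fin (K + 1)} {m0 m : ℕ} (hn : n = (K + 1) * l) (hσ : σ ∈ Bal n K l)
    (hl : 1 ≤ l) (hm0 : m0 ≤ m) (hm : n * (l - 1) + m < n.choose 2) {β : ℝ}
    (hβ : m0 / (n * ((n : ℝ) - l) / 2) * l = β)
    (hL : 1000000 ≤ log ((K : ℝ) + 1))
    (h1 : 2 * log ((K : ℝ) + 1) - 7 ≤ β) (h2 : β ≤ 2 * log ((K : ℝ) + 1))
    (hhalf : ((2 : ℝ) ^ (K + 1) + ((K : ℝ) + 1) ^ 2) * exp (-l) ≤ 1 / 2) :
    P1 n l m / 2 ≤ pr (goodE σ l m0 m) := by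
  have hP0 : 0 ≤ P1 n l m := by
    rw [← pr_proper hn hσ (m := m) (by omega)]; exact pr_nonneg _
  have hl0 : (0 : ℝ) < l := by exact_mod_cast hl
  set θ : ℝ := m0 / (n * ((n : ℝ) - l) / 2) with hθ
  -- removals
  have hB : pr (fun e : Fin (n.choose 2) ≃ Om n => ∃ φ ∈ PhB σ l, e ∈ avd (fun _ => Fm σ) m ∧
      e ∈ avd (fun _ => PX (rB σ φ)) m0) ≤ P1 n l m * (2 ^ (K + 1) * exp (-l)) := by
    refine (pr_union _ _).trans ?_
    calc _ ≤ ∑ φ ∈ PhB σ l, P1 n l m * exp (-(θ * ∑ v, wB l σ φ (φ v))) := by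
          refine sum_le_sum fun φ hφ => ?_
          have hφ' := mem_PhB.1 hφ
          refine pr_rel hn hσ hl hm0 hm (r := rB σ φ) ?_ ?_ (le_of_eq (count_B hσ φ))
          · rintro v w ⟨_, hv⟩ hvw
            apply hφ'.1 v
            rw [hv, hvw]
          · rintro v w ⟨_, hv⟩ ⟨hv', _⟩
            rw [hv'] at hv
            simp at hv
      _ = P1 n l m * ∑ φ ∈ PhB σ l, exp (-(θ * ∑ v, wB l σ φ (φ v))) := by rw [mul_sum]
      _ ≤ _ := mul_le_mul_of_nonneg_left (sum_B hn hσ hl hβ hL h1 h2) hP0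
  -- cuts
  have hD : pr (fun e : Fin (n.choose 2) ≃ Om n => ∃ p ∈ (univ : Finset (Fin (K + 1) × Fin (K + 1))),
      ∃ q ∈ (VV σ p).powerset ×ˢ (VV σ p).powerset, condD σ l p q ∧ e ∈ avd (fun _ => Fm σ) m ∧
      e ∈ avd (fun _ => PX (rD σ q)) m0) ≤ P1 n l m * (((K : ℝ) + 1) ^ 2 * exp (-l)) := by
    refine (pr_union _ _).trans ?_
    have hp : ∀ p ∈ (univ : Finset (Fin (K + 1) × Fin (K + 1))),
        pr (fun e : Fin (n.choose 2) ≃ Om n =>
        ∃ q ∈ (VV σ p).powerset ×ˢ (VV σ p).powerset, condD σ l p q ∧ e ∈ avd (fun _ => Fm σ) m ∧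
        e ∈ avd (fun _ => PX (rD σ q)) m0) ≤ P1 n l m * exp (-l) := by
      intro p _
      refine (pr_union _ _).trans ?_
      calc _ ≤ ∑ q ∈ (VV σ p).powerset ×ˢ (VV σ p).powerset, P1 n l m * exp (-(4 * l : ℝ)) := by
            refine sum_le_sum fun q hq => ?_
            rw [mem_product, mem_powerset, mem_powerset] at hq
            by_cases hc : condD σ l p q
            · refine le_trans (pr_mono (fun e he => he.2)) ?_
              refine (pr_rel hn hσ hl hm0 hm (r := rD σ q) ?_ ?_ (count_D hc hq.1 hq.2)).trans ?_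
              · exact fun v w h => h.2.2
              · intro v w h h'
                exact disjoint_left.1 hc.2.1 h.1 h'.2.1
              · apply mul_le_mul_of_nonneg_left _ hP0
                apply Real.exp_le_exp.2
                have : θ * ((l : ℝ) ^ 2 / 100) = β * l / 100 := by rw [← hβ]; ring
                rw [this]
                nlinarith
            · have : pr (fun e : Fin (n.choose 2) ≃ Om n => condD σ l p q ∧ e ∈ avd (fun _ => Fm σ) m ∧
                  e ∈ avd (fun _ => PX (rD σ q)) m0) = 0 := by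
                rw [pr_eq ∅ (fun e => by simp [hc])]
                simp
              rw [this]
              exact mul_nonneg hP0 (exp_pos _).le
        _ = (2 : ℝ) ^ (VV σ p).card * 2 ^ (VV σ p).card * (P1 n l m * exp (-(4 * l : ℝ))) := by
            rw [sum_const, card_product, card_powerset, nsmul_eq_mul]
            push_cast; ring
        _ ≤ 16 ^ l * (P1 n l m * exp (-(4 * l : ℝ))) := by
            apply mul_le_mul_of_nonneg_right _ (mul_nonneg hP0 (exp_pos _).le)
            rw [← pow_add]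
            have h3 := card_VV hσ p
            calc (2 : ℝ) ^ ((VV σ p).card + (VV σ p).card) ≤ 2 ^ (4 * l) :=
                  pow_le_pow_right₀ (by norm_num) (by omega)
              _ = 16 ^ l := by rw [pow_mul]; norm_num
        _ = P1 n l m * (16 ^ l * exp (-(4 * l : ℝ))) := by ring
        _ ≤ P1 n l m * exp (-l) := by
            apply mul_le_mul_of_nonneg_left _ hP0
            have h16 : (16 : ℝ) ≤ exp 3 := by
              have e1 : exp 3 = exp 1 ^ 3 := by rw [← Real.exp_nat_mul]; norm_num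
              rw [e1]
              have := Real.exp_one_gt_d9
              calc (16 : ℝ) ≤ 2.7182818283 ^ 3 := by norm_num
                _ ≤ exp 1 ^ 3 := pow_le_pow_left₀ (by norm_num) this.le 3
            calc (16 : ℝ) ^ l * exp (-(4 * l : ℝ)) ≤ exp 3 ^ l * exp (-(4 * l : ℝ)) := by
                  apply mul_le_mul_of_nonneg_right _ (exp_pos _).le
                  exact pow_le_pow_left₀ (by norm_num) h16 l
              _ = exp (-l) := by
                  rw [← Real.exp_nat_mul, ← Real.exp_add]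
                  congr 1; ring
    refine (sum_le_sum hp).trans (le_of_eq ?_)
    rw [sum_const, card_univ, Fintype.card_prod, Fintype.card_fin, nsmul_eq_mul]
    push_cast; ring
  -- combination
  have hall : pr (fun e : Fin (n.choose 2) ≃ Om n => e ∈ avd (fun _ => Fm σ) m) ≤
      pr (goodE σ l m0 m) + (pr (fun e : Fin (n.choose 2) ≃ Om n => ∃ φ ∈ PhB σ l,
        e ∈ avd (fun _ => Fm σ) m ∧ e ∈ avd (fun _ => PX (rB σ φ)) m0) +
      pr (fun e : Fin (n.choose 2) ≃ Om n => ∃ p ∈ (univ : Finset (Fin (K + 1) × Fin (K + 1))),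
      ∃ q ∈ (VV σ p).powerset ×ˢ (VV σ p).powerset, condD σ l p q ∧ e ∈ avd (fun _ => Fm σ) m ∧
      e ∈ avd (fun _ => PX (rD σ q)) m0)) := by
    refine le_trans (pr_mono ?_) ((pr_or _ _).trans (add_le_add le_rfl (pr_or _ _)))
    intro e he
    by_cases hg : goodE σ l m0 m e
    · exact Or.inl hg
    · right
      unfold goodE at hg
      push Not at hg
      by_cases hφ : ∀ φ ∈ PhB σ l, ¬ e ∈ avd (fun _ => PX (rB σ φ)) m0
      · obtain ⟨p, q, hq, hc, hav⟩ := hg he hφ
        exact Or.inr ⟨p, mem_univ _, q, hq, hc, he, hav⟩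
      · push Not at hφ
        obtain ⟨φ, h3, h4⟩ := hφ
        exact Or.inl ⟨φ, h3, he, h4⟩
  rw [pr_proper hn hσ (m := m) (by omega)] at hall
  have h3 : P1 n l m * (2 ^ (K + 1) * exp (-l)) + P1 n l m * (((K : ℝ) + 1) ^ 2 * exp (-l)) ≤
      P1 n l m * (1 / 2) := by
    rw [← mul_add, ← add_mul]
    exact mul_le_mul_of_nonneg_left hhalf hP0
  linarith

end

end Pool.Agent.W852.BL
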