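import Mathlib

/-!
# Numerical estimates
-/

set_option autoImplicit false

namespace Pool.Agent.W852.BL

open Real

theorem exp_eight : exp 8 ≤ 3000 := by
  have h1 : exp 8 = exp 1 ^ 8 := by rw [← Real.exp_nat_mul]; norm_num
  rw [h1]
  have h2 := Real.exp_one_lt_d9
  calc exp 1 ^ 8 ≤ (2.7182818286 : ℝ) ^ 8 := pow_le_pow_left₀ (exp_pos 1).le h2.le 8
    _ ≤ 3000 := by norm_num

theorem exp_small {x : ℝ} (hx : 100000 ≤ x) : exp (-x) ≤ 1 / 100000 := by
  rw [Real.exp_neg, ← one_div]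
  apply one_div_le_one_div_of_le (by norm_num)
  linarith [Real.add_one_le_exp x]

/-- the exponent in the union bound -/
theorem num_bound {L β q : ℝ} (hL : 1000000 ≤ L) (h1 : 2 * L - 7 ≤ β) (h2 : β ≤ 2 * L) (hq1 : 1 ≤ q)
    (hqk : q ≤ exp L) :
    (q * exp (-(7 / 10 * β)) + exp L * exp (1 - β)) * (q * exp (L / 5) + exp L) -
      L / 5 * ((q - 1) / β + 1 / 5) ≤ -1 := by
  have hβ0 : 0 < β := by linarith
  have e1 : (q * exp (-(7 / 10 * β)) + exp L * exp (1 - β)) * (q * exp (L / 5) + exp L) =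
      q * (q * (exp (-(7 / 10 * β)) * exp (L / 5))) + q * (exp (-(7 / 10 * β)) * exp L) +
        q * (exp L * exp (1 - β) * exp (L / 5)) + exp L * exp (1 - β) * exp L := by ring
  have b1 : q * (exp (-(7 / 10 * β)) * exp (L / 5)) ≤ 1 / 100000 := by
    calc q * (exp (-(7 / 10 * β)) * exp (L / 5)) ≤ exp L * (exp (-(7 / 10 * β)) * exp (L / 5)) :=
          mul_le_mul_of_nonneg_right hqk (by positivity)
      _ = exp (L + (-(7 / 10 * β) + L / 5)) := by rw [Real.exp_add, Real.exp_add]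
      _ ≤ exp (-(100000)) := Real.exp_le_exp.2 (by linarith)
      _ ≤ _ := exp_small le_rfl
  have b2 : exp (-(7 / 10 * β)) * exp L ≤ 1 / 100000 := by
    rw [← Real.exp_add]
    calc _ ≤ exp (-(100000)) := Real.exp_le_exp.2 (by linarith)
      _ ≤ _ := exp_small le_rfl
  have b3 : exp L * exp (1 - β) * exp (L / 5) ≤ 1 / 100000 := by
    rw [← Real.exp_add, ← Real.exp_add]
    calc _ ≤ exp (-(100000)) := Real.exp_le_exp.2 (by linarith)
      _ ≤ _ := exp_small le_rfl
  have b4 : exp L * exp (1 - β) * exp L ≤ 3000 := by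
    rw [← Real.exp_add, ← Real.exp_add]
    exact (Real.exp_le_exp.2 (by linarith)).trans exp_eight
  have c1 : (q - 1) / 10 ≤ L / 5 * ((q - 1) / β) := by
    have : L / 5 * ((q - 1) / β) = (q - 1) * (L / 5 / β) := by ring
    rw [this, div_eq_mul_inv (q - 1) 10]
    apply mul_le_mul_of_nonneg_left _ (by linarith)
    rw [le_div_iff₀ hβ0]
    linarith
  rw [e1]
  have hq0 : 0 ≤ q := by linarith
  have d1 := mul_le_mul_of_nonneg_left b1 hq0
  have d2 := mul_le_mul_of_nonneg_left b2 hq0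
  have d3 := mul_le_mul_of_nonneg_left b3 hq0
  have c2 : L / 5 * ((q - 1) / β + 1 / 5) = L / 5 * ((q - 1) / β) + L / 25 := by ring
  rw [c2]
  linarith

/-- the number of pairs in a large cut -/
theorem cut_bound {l a b c d : ℝ} (hl : 0 ≤ l) (ha : 0 ≤ a) (hb : 0 ≤ b) (hc : 0 ≤ c) (hd : 0 ≤ d)
    (h1 : 8 * l ≤ 10 * (a + c)) (h2 : 8 * l ≤ 10 * (b + d)) (h3 : l ≤ 10 * (a + b))
    (h4 : l ≤ 10 * (c + d)) : l ^ 2 / 100 ≤ a * d + b * c := by
  have p1 := mul_nonneg ha hd
  have p2 := mul_nonneg hb hc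
  rcases le_total (l / 10) c with hc1 | hc1
  · rcases le_total (l / 10) d with hd1 | hd1
    · have := mul_le_mul_of_nonneg_left hd1 ha
      have := mul_le_mul_of_nonneg_left hc1 hb
      nlinarith
    · have hb7 : 7 * l / 10 ≤ b := by linarith
      have := mul_le_mul hb7 hc1 (by linarith) hb
      nlinarith
  · have ha7 : 7 * l / 10 ≤ a := by linarith
    rcases le_total (l / 10) d with hd1 | hd1
    · have := mul_le_mul ha7 hd1 (by linarith) ha
      nlinarith
    · have hb7 : 7 * l / 10 ≤ b := by linarith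
      have q1 := mul_le_mul_of_nonneg_right ha7 hd
      have q2 := mul_le_mul_of_nonneg_right hb7 hc
      nlinarith

end Pool.Agent.W852.BL
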