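import Pool.Agent.W852.BL.Plant
import Pool.Agent.W852.BL.Num

/-!
# Union bounds over removals and cuts
-/

set_option autoImplicit false

namespace Pool.Agent.W852.BL

open Finset Real
open scoped Classical

noncomputable section

variable {n K l : ℕ}

/-- candidates for removals -/
def PhB (σ : Fin n → Fin (K + 1)) (l : ℕ) : Finset (Fin n → Option (Fin (K + 1))) :=
  univ.filter (fun φ => (∀ v, φ v ≠ some (σ v)) ∧ (∀ i, 10 * rem σ φ i ≤ 3 * l) ∧
    ∃ i, 2 * l ≤ 10 * rem σ φ i)

theorem mem_PhB {σ : Fin n → Fin (K + 1)} {φ : Fin n → Option (Fin (K + 1))} :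
    φ ∈ PhB σ l ↔ (∀ v, φ v ≠ some (σ v)) ∧ (∀ i, 10 * rem σ φ i ≤ 3 * l) ∧
    ∃ i, 2 * l ≤ 10 * rem σ φ i := by simp [PhB]

/-- the forbidden pairs of a removal -/
def rB (σ : Fin n → Fin (K + 1)) (φ : Fin n → Option (Fin (K + 1))) (v w : Fin n) : Prop :=
  φ w = none ∧ φ v = some (σ w)

/-- number of forbidden pairs at one vertex -/
def wB (l : ℕ) (σ : Fin n → Fin (K + 1)) (φ : Fin n → Option (Fin (K + 1)))
    (o : Option (Fin (K + 1))) : ℝ :=
  match o with
  | none => 0
  | some j => (l : ℝ) - rem σ φ j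

theorem left_card {σ : Fin n → Fin (K + 1)} (hσ : σ ∈ Bal n K l)
    (φ : Fin n → Option (Fin (K + 1))) (j : Fin (K + 1)) :
    (univ.filter (fun w => φ w = none ∧ σ w = j)).card + rem σ φ j = l := by
  have hc := mem_Bal.1 hσ j
  unfold cls at hc
  unfold rem
  have := card_filter_add_card_filter_not (s := univ.filter (fun v => σ v = j)) (fun v => φ v = none)
  rw [filter_filter, filter_filter, hc] at this
  rw [← this]
  congr 2
  ext w
  simp [and_comm]

theorem count_B {σ : Fin n → Fin (K + 1)} (hσ : σ ∈ Bal n K l)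
    (φ : Fin n → Option (Fin (K + 1))) :
    ∑ v, wB l σ φ (φ v) = ((univ.filter (fun p : Fin n × Fin n => rB σ φ p.1 p.2)).card : ℝ) := by
  rw [card_filter, Fintype.sum_prod_type]
  push_cast
  refine sum_congr rfl fun v _ => ?_
  rw [← Nat.cast_one (R := ℝ), ← Nat.cast_zero (R := ℝ)]
  simp only [← Nat.cast_ite]
  rw [← Nat.cast_sum, ← card_filter]
  cases h : φ v with
  | none =>
    have : univ.filter (fun w => rB σ φ v w) = ∅ := by
      rw [filter_eq_empty_iff]
      intro w _ hw
      unfold rB at hw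
      rw [h] at hw
      simp at hw
    rw [this]
    simp [wB]
  | some j =>
    have e1 : univ.filter (fun w => rB σ φ v w) = univ.filter (fun w => φ w = none ∧ σ w = j) := by
      refine filter_congr fun w _ => ?_
      unfold rB
      rw [h, Option.some.injEq]
      exact and_congr_right fun _ => eq_comm
    rw [e1]
    have := left_card hσ φ j
    have h2 : ((univ.filter (fun w => φ w = none ∧ σ w = j)).card : ℝ) + rem σ φ j = l := by
      exact_mod_cast this
    unfold wB
    simp only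
    linarith

/-- the weight of a label -/
def bQ (A0 A1 z : ℝ) (σ : Fin n → Fin (K + 1)) (Q : Finset (Fin (K + 1))) (v : Fin n)
    (o : Option (Fin (K + 1))) : ℝ :=
  match o with
  | none => 1
  | some j => (if σ v ∈ Q then z else 1) * (if j ∈ Q then A1 else A0)

theorem bQ_nonneg {A0 A1 z : ℝ} (h0 : 0 ≤ A0) (h1 : 0 ≤ A1) (hz : 0 ≤ z) (σ : Fin n → Fin (K + 1))
    (Q : Finset (Fin (K + 1))) (v : Fin n) (o : Option (Fin (K + 1))) : 0 ≤ bQ A0 A1 z σ Q v o := by
  cases o with
  | none => unfold bQ; norm_num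
  | some j =>
    unfold bQ
    simp only
    apply mul_nonneg
    · split_ifs <;> linarith
    · split_ifs <;> linarith

theorem one_B {σ : Fin n → Fin (K + 1)} {L β θ : ℝ} (hl : 1 ≤ l) (hβ5 : 5 < β)
    (hθ : θ * l = β) (hL : 0 ≤ L) {φ : Fin n → Option (Fin (K + 1))} (hφ : φ ∈ PhB σ l) :
    exp (-(θ * ∑ v, wB l σ φ (φ v))) ≤
      exp (-(L / 5 * (l * ((((univ.filter (fun j => (l : ℝ) < β * rem σ φ j)).card : ℝ) - 1) / β + 1 / 5)))) *
      ∏ v, bQ (exp (1 - β)) (exp (-(7 / 10 * β))) (exp (L / 5)) σ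
        (univ.filter (fun j => (l : ℝ) < β * rem σ φ j)) v (φ v) := by
  have hl0 : (0 : ℝ) < l := by exact_mod_cast hl
  have hβ0 : 0 < β := by linarith
  have hθ0 : 0 < θ := by
    by_contra hcon
    have := mul_nonpos_of_nonpos_of_nonneg (not_lt.1 hcon) hl0.le
    linarith
  obtain ⟨g1, g2, i0, g3⟩ := mem_PhB.1 hφ
  set Q := univ.filter (fun j => (l : ℝ) < β * rem σ φ j) with hQ
  have hmemQ : ∀ j, j ∈ Q ↔ (l : ℝ) < β * rem σ φ j := by intro j; rw [hQ, mem_filter]; simp
  -- the removed vertices in the classes of Q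
  have hcard : ((univ.filter (fun v => φ v ≠ none ∧ σ v ∈ Q)).card : ℝ) = ∑ i ∈ Q, (rem σ φ i : ℝ) := by
    have : (univ.filter (fun v => φ v ≠ none ∧ σ v ∈ Q)).card = ∑ i ∈ Q, rem σ φ i := by
      rw [card_eq_sum_card_fiberwise (f := σ) (t := Q)]
      · refine sum_congr rfl fun i hi => ?_
        unfold rem
        rw [filter_filter]
        congr 1
        ext v
        simp only [mem_filter, mem_univ, true_and]
        constructor
        · rintro ⟨⟨h1, _⟩, h2⟩
          exact ⟨h2, h1⟩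
        · rintro ⟨h1, h2⟩
          exact ⟨⟨h2, h1 ▸ hi⟩, h1⟩
      · intro v hv
        simp only [coe_filter, mem_univ, true_and, Set.mem_ofPred_eq] at hv
        exact hv.2
    exact_mod_cast this
  have g3' : 2 * (l : ℝ) ≤ 10 * rem σ φ i0 := by exact_mod_cast g3
  have hi0 : i0 ∈ Q := by
    rw [hmemQ]
    nlinarith
  have hlow : (l : ℝ) * (((Q.card : ℝ) - 1) / β + 1 / 5) ≤ ∑ i ∈ Q, (rem σ φ i : ℝ) := by
    rw [← add_sum_erase _ _ hi0]
    have h1 : ((Q.card : ℝ) - 1) * (l / β) ≤ ∑ i ∈ Q.erase i0, (rem σ φ i : ℝ) := by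
      have h2 : ((Q.erase i0).card : ℝ) = (Q.card : ℝ) - 1 := by
        rw [card_erase_of_mem hi0, Nat.cast_sub (card_pos.2 ⟨i0, hi0⟩)]
        simp
      rw [← h2, ← nsmul_eq_mul, ← sum_const]
      refine sum_le_sum fun i hi => ?_
      rw [mem_erase] at hi
      have := (hmemQ i).1 hi.2
      rw [div_le_iff₀ hβ0]
      linarith
    have h2 : (l : ℝ) * (((Q.card : ℝ) - 1) / β + 1 / 5) = ((Q.card : ℝ) - 1) * (l / β) + l / 5 := by ring
    rw [h2]
    linarith
  -- product
  have hprod : ∏ v, bQ (exp (1 - β)) (exp (-(7 / 10 * β))) (exp (L / 5)) σ Q v (φ v) =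
      exp (L / 5 * ∑ i ∈ Q, (rem σ φ i : ℝ)) *
        ∏ v, (match φ v with
          | none => (1 : ℝ)
          | some j => if j ∈ Q then exp (-(7 / 10 * β)) else exp (1 - β)) := by
    have e1 : ∀ v, bQ (exp (1 - β)) (exp (-(7 / 10 * β))) (exp (L / 5)) σ Q v (φ v) =
        (if φ v ≠ none ∧ σ v ∈ Q then exp (L / 5) else 1) *
        (match φ v with
          | none => (1 : ℝ)
          | some j => if j ∈ Q then exp (-(7 / 10 * β)) else exp (1 - β)) := by
      intro v
      cases φ v with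
      | none => simp [bQ]
      | some j => simp [bQ]
    simp only [e1]
    rw [prod_mul_distrib]
    congr 1
    rw [prod_ite, prod_const, prod_const, one_pow, mul_one, ← Real.exp_nat_mul, hcard]
    congr 1; ring
  rw [hprod, ← mul_assoc, ← Real.exp_add]
  have h5 : 1 ≤ exp (-(L / 5 * (l * (((Q.card : ℝ) - 1) / β + 1 / 5))) +
      L / 5 * ∑ i ∈ Q, (rem σ φ i : ℝ)) := by
    apply Real.one_le_exp
    have := mul_le_mul_of_nonneg_left hlow (by linarith : 0 ≤ L / 5)
    linarith
  have h6 : exp (-(θ * ∑ v, wB l σ φ (φ v))) ≤ ∏ v, (match φ v with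
          | none => (1 : ℝ)
          | some j => if j ∈ Q then exp (-(7 / 10 * β)) else exp (1 - β)) := by
    rw [mul_sum, ← sum_neg_distrib, Real.exp_sum]
    refine prod_le_prod (fun v _ => (exp_pos _).le) fun v _ => ?_
    cases φ v with
    | none => simp [wB]
    | some j =>
      simp only [wB]
      split_ifs with hj
      · apply Real.exp_le_exp.2
        have : 10 * (rem σ φ j : ℝ) ≤ 3 * l := by exact_mod_cast g2 j
        have h7 : θ * (rem σ φ j : ℝ) ≤ 3 / 10 * β := by
          rw [← hθ]; nlinarith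
        rw [mul_sub, hθ]
        linarith
      · apply Real.exp_le_exp.2
        rw [hmemQ, not_lt] at hj
        have h7 : θ * (rem σ φ j : ℝ) ≤ 1 := by
          rw [← hθ] at hj
          have : θ * l * (rem σ φ j : ℝ) = l * (θ * (rem σ φ j : ℝ)) := by ring
          rw [this] at hj
          by_contra hcon
          push Not at hcon
          nlinarith
        rw [mul_sub, hθ]
        linarith
  calc _ ≤ _ := h6
    _ = 1 * _ := (one_mul _).symm
    _ ≤ _ := by
      apply mul_le_mul_of_nonneg_right h5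
      refine prod_nonneg fun v _ => ?_
      split
      · norm_num
      · split_ifs <;> positivity

theorem sum_B {σ : Fin n → Fin (K + 1)} (hn : n = (K + 1) * l) (hσ : σ ∈ Bal n K l) {β θ : ℝ}
    (hl : 1 ≤ l) (hθ : θ * l = β) (hL : 1000000 ≤ log ((K : ℝ) + 1))
    (h1 : 2 * log ((K : ℝ) + 1) - 7 ≤ β) (h2 : β ≤ 2 * log ((K : ℝ) + 1)) :
    ∑ φ ∈ PhB σ l, exp (-(θ * ∑ v, wB l σ φ (φ v))) ≤ 2 ^ (K + 1) * exp (-l) := by
  set L := log ((K : ℝ) + 1) with hLdef
  have hl0 : (0 : ℝ) < l := by exact_mod_cast hl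
  have hk : exp L = (K : ℝ) + 1 := by rw [hLdef, Real.exp_log (by positivity)]
  have hβ5 : 5 < β := by linarith
  have hβ0 : 0 < β := by linarith
  set A0 := exp (1 - β) with hA0
  set A1 := exp (-(7 / 10 * β)) with hA1
  set z := exp (L / 5) with hz
  have hA0p : 0 < A0 := exp_pos _
  have hA1p : 0 < A1 := exp_pos _
  have hzp : 0 < z := exp_pos _
  have hz1 : 1 ≤ z := by rw [hz]; apply Real.one_le_exp; linarith
  set g : Finset (Fin (K + 1)) → ℝ := fun Q => exp (-(L / 5 * (l * (((Q.card : ℝ) - 1) / β + 1 / 5))))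
    with hg
  have hstep1 : ∑ φ ∈ PhB σ l, exp (-(θ * ∑ v, wB l σ φ (φ v))) ≤
      ∑ φ : Fin n → Option (Fin (K + 1)), ∑ Q ∈ (univ : Finset (Finset (Fin (K + 1)))).filter (fun Q => Q.Nonempty),
        g Q * ∏ v, bQ A0 A1 z σ Q v (φ v) := by
    have hnn : ∀ φ : Fin n → Option (Fin (K + 1)), ∀ Q : Finset (Fin (K + 1)),
        0 ≤ g Q * ∏ v, bQ A0 A1 z σ Q v (φ v) := by
      intro φ Q
      exact mul_nonneg (exp_pos _).le (prod_nonneg fun v _ => bQ_nonneg hA0p.le hA1p.le hzp.le _ _ _ _)
    calc _ ≤ ∑ φ ∈ PhB σ l, ∑ Q ∈ (univ : Finset (Finset (Fin (K + 1)))).filter (fun Q => Q.Nonempty),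
          g Q * ∏ v, bQ A0 A1 z σ Q v (φ v) := by
          refine sum_le_sum fun φ hφ => ?_
          have h3 := one_B hl hβ5 hθ (by linarith : 0 ≤ L) hφ
          have hne : (univ.filter (fun j => (l : ℝ) < β * rem σ φ j)) ∈
              (univ : Finset (Finset (Fin (K + 1)))).filter (fun Q => Q.Nonempty) := by
            rw [mem_filter]
            refine ⟨mem_univ _, ?_⟩
            obtain ⟨-, -, i0, g3⟩ := mem_PhB.1 hφ
            have g3' : 2 * (l : ℝ) ≤ 10 * rem σ φ i0 := by exact_mod_cast g3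
            refine ⟨i0, ?_⟩
            rw [mem_filter]
            refine ⟨mem_univ _, ?_⟩
            nlinarith
          exact h3.trans (single_le_sum (f := fun Q => g Q * ∏ v, bQ A0 A1 z σ Q v (φ v))
            (fun Q _ => hnn φ Q) hne)
      _ ≤ _ := by
          apply sum_le_sum_of_subset_of_nonneg (subset_univ _)
          intro φ _ _
          exact sum_nonneg fun Q _ => hnn φ Q
  have hcls : ∀ Q : Finset (Fin (K + 1)), ∑ v, (if σ v ∈ Q then z else 1) ≤
      l * ((Q.card : ℝ) * z + exp L) := by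
    intro Q
    have e1 : ∑ v, (if σ v ∈ Q then z else 1) = ∑ i, (l : ℝ) * (if i ∈ Q then z else 1) := by
      rw [← sum_fiberwise (univ : Finset (Fin n)) σ]
      refine sum_congr rfl fun i _ => ?_
      rw [sum_congr rfl (g := fun _ => if i ∈ Q then z else 1) (by
        intro v hv; rw [mem_filter] at hv; rw [hv.2]), sum_const, nsmul_eq_mul]
      congr 1
      have := mem_Bal.1 hσ i
      unfold cls at this
      exact_mod_cast this
    rw [e1, ← mul_sum]
    apply mul_le_mul_of_nonneg_left _ hl0.le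
    calc ∑ i, (if i ∈ Q then z else 1) ≤ ∑ i : Fin (K + 1), ((if i ∈ Q then z else 0) + 1) := by
          refine sum_le_sum fun i _ => ?_
          split_ifs <;> linarith
      _ = (Q.card : ℝ) * z + exp L := by
          rw [sum_add_distrib, sum_ite_mem, univ_inter, sum_const, sum_const, card_univ,
            Fintype.card_fin, hk]
          simp
  have hstep2 : ∀ Q ∈ (univ : Finset (Finset (Fin (K + 1)))).filter (fun Q => Q.Nonempty),
      ∑ φ : Fin n → Option (Fin (K + 1)), g Q * ∏ v, bQ A0 A1 z σ Q v (φ v) ≤ exp (-l) := by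
    intro Q hQ
    rw [mem_filter] at hQ
    rw [← mul_sum]
    have e1 : ∑ φ : Fin n → Option (Fin (K + 1)), ∏ v, bQ A0 A1 z σ Q v (φ v) =
        ∏ v, ∑ o, bQ A0 A1 z σ Q v o := by
      rw [prod_univ_sum, Fintype.piFinset_univ]
    have e2 : ∀ v, ∑ o, bQ A0 A1 z σ Q v o ≤
        exp ((if σ v ∈ Q then z else 1) * ((Q.card : ℝ) * A1 + exp L * A0)) := by
      intro v
      rw [Fintype.sum_option]
      have e3 : ∑ j : Fin (K + 1), bQ A0 A1 z σ Q v (some j) =
          (if σ v ∈ Q then z else 1) * ∑ j : Fin (K + 1), (if j ∈ Q then A1 else A0) := by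
        rw [mul_sum]; rfl
      have e4 : ∑ j : Fin (K + 1), (if j ∈ Q then A1 else A0) ≤ (Q.card : ℝ) * A1 + exp L * A0 := by
        calc ∑ j : Fin (K + 1), (if j ∈ Q then A1 else A0)
            ≤ ∑ j : Fin (K + 1), ((if j ∈ Q then A1 else 0) + A0) := by
              refine sum_le_sum fun j _ => ?_
              split_ifs <;> linarith
          _ = (Q.card : ℝ) * A1 + exp L * A0 := by
              rw [sum_add_distrib, sum_ite_mem, univ_inter, sum_const, sum_const, card_univ,
                Fintype.card_fin, hk]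
              simp
      have e5 : 0 ≤ (if σ v ∈ Q then z else (1 : ℝ)) := by split_ifs <;> linarith
      have e6 : bQ A0 A1 z σ Q v none = 1 := rfl
      rw [e3, e6]
      refine le_trans ?_ (Real.add_one_le_exp _)
      have := mul_le_mul_of_nonneg_left e4 e5
      linarith
    have e7 : ∏ v, ∑ o, bQ A0 A1 z σ Q v o ≤
        exp (((Q.card : ℝ) * A1 + exp L * A0) * (l * ((Q.card : ℝ) * z + exp L))) := by
      calc _ ≤ ∏ v, exp ((if σ v ∈ Q then z else 1) * ((Q.card : ℝ) * A1 + exp L * A0)) := by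
            refine prod_le_prod (fun v _ => sum_nonneg fun o _ =>
              bQ_nonneg hA0p.le hA1p.le hzp.le _ _ _ _) fun v _ => e2 v
        _ = exp (((Q.card : ℝ) * A1 + exp L * A0) * ∑ v, (if σ v ∈ Q then z else 1)) := by
            rw [← Real.exp_sum, ← sum_mul, mul_comm]
        _ ≤ _ := by
            apply Real.exp_le_exp.2
            apply mul_le_mul_of_nonneg_left (hcls Q)
            positivity
    have hq1 : (1 : ℝ) ≤ Q.card := by exact_mod_cast card_pos.2 hQ.2
    have hqk : (Q.card : ℝ) ≤ exp L := by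
      rw [hk]
      have := card_le_univ Q
      rw [Fintype.card_fin] at this
      exact_mod_cast this
    have hnum := num_bound hL h1 h2 hq1 hqk
    rw [e1]
    calc _ ≤ g Q * exp (((Q.card : ℝ) * A1 + exp L * A0) * (l * ((Q.card : ℝ) * z + exp L))) :=
          mul_le_mul_of_nonneg_left e7 (exp_pos _).le
      _ = exp (l * (((Q.card : ℝ) * A1 + exp L * A0) * ((Q.card : ℝ) * z + exp L) -
            L / 5 * (((Q.card : ℝ) - 1) / β + 1 / 5))) := by
          rw [hg]
          simp only
          rw [← Real.exp_add]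
          congr 1; ring
      _ ≤ exp (-l) := by
          apply Real.exp_le_exp.2
          have := mul_le_mul_of_nonneg_left hnum hl0.le
          linarith
  calc _ ≤ _ := hstep1
    _ = ∑ Q ∈ (univ : Finset (Finset (Fin (K + 1)))).filter (fun Q => Q.Nonempty),
        ∑ φ : Fin n → Option (Fin (K + 1)), g Q * ∏ v, bQ A0 A1 z σ Q v (φ v) := sum_comm
    _ ≤ ∑ Q ∈ (univ : Finset (Finset (Fin (K + 1)))).filter (fun Q => Q.Nonempty), exp (-(l : ℝ)) :=
        sum_le_sum hstep2
    _ ≤ 2 ^ (K + 1) * exp (-l) := by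
        rw [sum_const, nsmul_eq_mul]
        apply mul_le_mul_of_nonneg_right _ (exp_pos _).le
        have h3 : ((univ : Finset (Finset (Fin (K + 1)))).filter (fun Q => Q.Nonempty)).card ≤ 2 ^ (K + 1) := by
          refine (card_filter_le _ _).trans ?_
          rw [card_univ, Fintype.card_finset, Fintype.card_fin]
        exact_mod_cast h3

end

end Pool.Agent.W852.BL
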