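import Pool.Agent.W852.BL.Pairs

/-!
# The deterministic step: a linked subcollection
-/

set_option autoImplicit false

namespace Pool.Agent.W852.BL

open Finset
open scoped Classical

noncomputable section

/-- number of removed vertices of class `i` -/
def rem {n K : ℕ} (σ : Fin n → Fin (K + 1)) (φ : Fin n → Option (Fin (K + 1))) (i : Fin (K + 1)) : ℕ :=
  (univ.filter (fun v => σ v = i ∧ φ v ≠ none)).card

theorem det {n K l : ℕ} (G : SimpleGraph (Fin n)) {σ : Fin n → Fin (K + 1)} (hσ : σ ∈ Bal n K l)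
    (hl : 1 ≤ l)
    (nB : ∀ φ : Fin n → Option (Fin (K + 1)), (∀ v, φ v ≠ some (σ v)) →
      (∀ i, 10 * rem σ φ i ≤ 3 * l) → (∃ i, 2 * l ≤ 10 * rem σ φ i) →
      ∃ v w, φ w = none ∧ φ v = some (σ w) ∧ G.Adj v w)
    (nD : ∀ i j, i ≠ j → ∀ S T : Finset (Fin n), Disjoint S T →
      (∀ v ∈ S, σ v = i ∨ σ v = j) → (∀ v ∈ T, σ v = i ∨ σ v = j) →
      8 * l ≤ 10 * (univ.filter (fun v => v ∈ S ∪ T ∧ σ v = i)).card →
      8 * l ≤ 10 * (univ.filter (fun v => v ∈ S ∪ T ∧ σ v = j)).card →
      l ≤ 10 * S.card → l ≤ 10 * T.card → ∃ v ∈ S, ∃ w ∈ T, σ v ≠ σ w ∧ G.Adj v w) :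
    ∃ U : Fin (K + 1) → Set (Fin n), (∀ i, ∀ v ∈ U i, σ v = i) ∧ (∀ i, (U i).Nonempty) ∧
      ∀ i j, i ≠ j → (G.induce (U i ∪ U j)).Connected := by
  -- admissible removals
  set P : (Fin n → Option (Fin (K + 1))) → Prop := fun φ => (∀ v, φ v ≠ some (σ v)) ∧
    (∀ i, 10 * rem σ φ i < 2 * l) ∧ ∀ v w, φ w = none → φ v = some (σ w) → ¬ G.Adj v w with hP
  set R : (Fin n → Option (Fin (K + 1))) → ℕ := fun φ => (univ.filter (fun v => φ v ≠ none)).card
    with hR
  have hne : (univ.filter P).Nonempty := by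
    refine ⟨fun _ => none, ?_⟩
    rw [mem_filter]
    refine ⟨mem_univ _, fun v => by simp, fun i => ?_, fun v w _ h => by simp at h⟩
    unfold rem
    simp
    omega
  obtain ⟨φ, hφ, hmax⟩ := exists_max_image (univ.filter P) R hne
  rw [mem_filter] at hφ
  obtain ⟨-, h1, h2, h3⟩ := hφ
  have hUcard : ∀ i, (univ.filter (fun v => σ v = i ∧ φ v = none)).card + rem σ φ i = l := by
    intro i
    have hc := mem_Bal.1 hσ i
    unfold cls at hc
    unfold rem
    have := card_filter_add_card_filter_not (s := univ.filter (fun v => σ v = i)) (fun v => φ v = none)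
    rw [filter_filter, filter_filter, hc] at this
    exact this
  refine ⟨fun i => {v | σ v = i ∧ φ v = none}, fun i v hv => hv.1, ?_, ?_⟩
  · intro i
    have a := hUcard i
    have b := h2 i
    have : 0 < (univ.filter (fun v => σ v = i ∧ φ v = none)).card := by omega
    obtain ⟨v, hv⟩ := card_pos.1 this
    rw [mem_filter] at hv
    exact ⟨v, hv.2⟩
  intro i j hij
  set s : Set (Fin n) := {v | σ v = i ∧ φ v = none} ∪ {v | σ v = j ∧ φ v = none} with hs
  have hmem : ∀ v, v ∈ s ↔ (σ v = i ∨ σ v = j) ∧ φ v = none := by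
    intro v
    rw [hs]
    simp only [Set.mem_union, Set.mem_ofPred_eq]
    tauto
  -- a small set without edges to the rest gives a contradiction
  have small : ∀ S : Finset (Fin n), S.Nonempty → (∀ v ∈ S, v ∈ s) → 10 * S.card < l →
      (∀ v ∈ S, ∀ w ∈ s, w ∉ S → ¬ G.Adj v w) → False := by
    intro S hSne hSs hSc hSe
    set φ' : Fin n → Option (Fin (K + 1)) := fun v =>
      if v ∈ S then (if σ v = i then some j else some i) else φ v with hφ'
    have hin : ∀ v, v ∈ S → φ' v = if σ v = i then some j else some i := by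
      intro v hv; rw [hφ']; simp only; rw [if_pos hv]
    have hout : ∀ v, v ∉ S → φ' v = φ v := by
      intro v hv; rw [hφ']; simp only; rw [if_neg hv]
    have hnn : ∀ v, φ' v ≠ none ↔ v ∈ S ∨ φ v ≠ none := by
      intro v
      by_cases hv : v ∈ S
      · rw [hin v hv]
        split_ifs <;> simp [hv]
      · rw [hout v hv]
        simp [hv]
    have a1 : ∀ v, φ' v ≠ some (σ v) := by
      intro v
      by_cases hv : v ∈ S
      · rw [hin v hv]
        have := ((hmem v).1 (hSs v hv)).1
        split_ifs with hc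
        · intro h
          rw [Option.some.injEq] at h
          exact hij (hc.symm.trans h.symm)
        · intro h
          rw [Option.some.injEq] at h
          exact hc h.symm
      · rw [hout v hv]; exact h1 v
    have a3 : ∀ v w, φ' w = none → φ' v = some (σ w) → ¬ G.Adj v w := by
      intro v w hw hv
      have hwS : w ∉ S := by
        intro hc
        exact (hnn w).2 (Or.inl hc) hw
      rw [hout w hwS] at hw
      by_cases hvS : v ∈ S
      · rw [hin v hvS] at hv
        apply hSe v hvS w _ hwS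
        rw [hmem]
        refine ⟨?_, hw⟩
        split_ifs at hv
        · rw [Option.some.injEq] at hv; exact Or.inr hv.symm
        · rw [Option.some.injEq] at hv; exact Or.inl hv.symm
      · rw [hout v hvS] at hv
        exact h3 v w hw hv
    have a2 : ∀ c, rem σ φ' c ≤ rem σ φ c + S.card := by
      intro c
      unfold rem
      refine le_trans (card_le_card ?_) (card_union_le _ _)
      intro v hv
      rw [mem_filter] at hv
      rw [mem_union, mem_filter]
      rcases (hnn v).1 hv.2.2 with h | h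
      · exact Or.inr h
      · exact Or.inl ⟨mem_univ _, hv.2.1, h⟩
    have a4 : R φ < R φ' := by
      rw [hR]
      simp only
      apply card_lt_card
      rw [ssubset_iff_subset_ne]
      constructor
      · intro v hv
        rw [mem_filter] at hv ⊢
        exact ⟨mem_univ _, (hnn v).2 (Or.inr hv.2)⟩
      · obtain ⟨v, hv⟩ := hSne
        intro heq
        have : v ∈ univ.filter (fun v => φ' v ≠ none) := by
          rw [mem_filter]
          exact ⟨mem_univ _, (hnn v).2 (Or.inl hv)⟩
        rw [← heq, mem_filter] at this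
        exact this.2 ((hmem v).1 (hSs v hv)).2
    by_cases hbal : ∀ c, 10 * rem σ φ' c < 2 * l
    · have := hmax φ' (by rw [mem_filter]; exact ⟨mem_univ _, a1, hbal, a3⟩)
      omega
    · push Not at hbal
      obtain ⟨c, hc⟩ := hbal
      obtain ⟨v, w, hw, hv, hadj⟩ := nB φ' a1 (fun c => by
        have := a2 c
        have := h2 c
        omega) ⟨c, hc⟩
      exact a3 v w hw hv hadj
  -- a vertex
  have hnonempty : Nonempty s := by
    have a := hUcard i
    have b := h2 i
    have : 0 < (univ.filter (fun v => σ v = i ∧ φ v = none)).card := by omega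
    obtain ⟨v, hv⟩ := card_pos.1 this
    rw [mem_filter] at hv
    exact ⟨⟨v, (hmem v).2 ⟨Or.inl hv.2.1, hv.2.2⟩⟩⟩
  rw [SimpleGraph.connected_iff]
  refine ⟨?_, hnonempty⟩
  by_contra hcon
  unfold SimpleGraph.Preconnected at hcon
  push Not at hcon
  obtain ⟨v0, w0, hvw⟩ := hcon
  set S : Finset (Fin n) := univ.filter (fun w => ∃ h : w ∈ s, (G.induce s).Reachable v0 ⟨w, h⟩) with hS
  set T : Finset (Fin n) := univ.filter (fun w => w ∈ s ∧ w ∉ S) with hT
  have hSs : ∀ v ∈ S, v ∈ s := by
    intro v hv; rw [hS, mem_filter] at hv; exact hv.2.1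
  have hTs : ∀ v ∈ T, v ∈ s := by
    intro v hv; rw [hT, mem_filter] at hv; exact hv.2.1
  have hv0 : (v0 : Fin n) ∈ S := by
    rw [hS, mem_filter]; exact ⟨mem_univ _, v0.2, SimpleGraph.Reachable.refl _⟩
  have hw0 : (w0 : Fin n) ∈ T := by
    rw [hT, mem_filter]
    refine ⟨mem_univ _, w0.2, ?_⟩
    intro hc
    rw [hS, mem_filter] at hc
    exact hvw hc.2.2
  have hedge : ∀ v ∈ S, ∀ w ∈ s, w ∉ S → ¬ G.Adj v w := by
    intro v hv w hw hwS hadj
    apply hwS
    rw [hS, mem_filter] at hv ⊢
    obtain ⟨_, hvs, hr⟩ := hv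
    refine ⟨mem_univ _, hw, hr.trans ?_⟩
    apply SimpleGraph.Adj.reachable
    exact hadj
  have hdisj : Disjoint S T := by
    rw [disjoint_left]
    intro v hv hv'
    rw [hT, mem_filter] at hv'
    exact hv'.2.2 hv
  by_cases c1 : 10 * S.card < l
  · exact small S ⟨_, hv0⟩ hSs c1 hedge
  by_cases c2 : 10 * T.card < l
  · refine small T ⟨_, hw0⟩ hTs c2 ?_
    intro v hv w hw hwT hadj
    have hwS : w ∈ S := by
      by_contra hc
      apply hwT
      rw [hT, mem_filter]
      exact ⟨mem_univ _, hw, hc⟩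
    rw [hT, mem_filter] at hv
    exact hedge w hwS v hv.2.1 hv.2.2 hadj.symm
  have hcount : ∀ c, (c = i ∨ c = j) →
      8 * l ≤ 10 * (univ.filter (fun v => v ∈ S ∪ T ∧ σ v = c)).card := by
    intro c hc
    have a := hUcard c
    have b := h2 c
    have : (univ.filter (fun v => σ v = c ∧ φ v = none)).card ≤
        (univ.filter (fun v => v ∈ S ∪ T ∧ σ v = c)).card := by
      apply card_le_card
      intro v hv
      rw [mem_filter] at hv ⊢
      refine ⟨mem_univ _, ?_, hv.2.1⟩
      have hvs : v ∈ s := by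
        rw [hmem]
        refine ⟨?_, hv.2.2⟩
        rcases hc with rfl | rfl
        · exact Or.inl hv.2.1
        · exact Or.inr hv.2.1
      rw [mem_union]
      by_cases hvS : v ∈ S
      · exact Or.inl hvS
      · right
        rw [hT, mem_filter]
        exact ⟨mem_univ _, hvs, hvS⟩
    omega
  obtain ⟨v, hv, w, hw, -, hadj⟩ := nD i j hij S T hdisj
    (fun v hv => ((hmem v).1 (hSs v hv)).1) (fun v hv => ((hmem v).1 (hTs v hv)).1)
    (hcount i (Or.inl rfl)) (hcount j (Or.inr rfl)) (by omega) (by omega)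
  rw [hT, mem_filter] at hw
  exact hedge v hv w hw.2.1 hw.2.2 hadj

end

end Pool.Agent.W852.BL
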