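import Mathlib

/-!
# Entropy inequalities
-/

set_option autoImplicit false

namespace Pool.Agent.W852.BL

open Finset Real

noncomputable section

/-- relative entropy of Poisson laws -/
def hf (y : ℝ) : ℝ := y * log y - y + 1

theorem hf_ge_sqrt {y : ℝ} (hy : 0 ≤ y) : (√y - 1) ^ 2 ≤ hf y := by
  unfold hf
  rcases hy.eq_or_lt with rfl | hy
  · simp
  have hs : 0 < √y := Real.sqrt_pos.2 hy
  have h1 : log (√y)⁻¹ ≤ (√y)⁻¹ - 1 := Real.log_le_sub_one_of_pos (inv_pos.2 hs)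
  rw [Real.log_inv, Real.log_sqrt hy.le] at h1
  have h2 : √y * √y = y := Real.mul_self_sqrt hy.le
  have h3 : y * (√y)⁻¹ = √y := by
    field_simp
    nlinarith
  have h4 : y * (-(log y / 2)) ≤ y * ((√y)⁻¹ - 1) := mul_le_mul_of_nonneg_left h1 hy.le
  rw [mul_sub, h3] at h4
  nlinarith

theorem hf_small {y : ℝ} (hy : 0 ≤ y) (hy2 : y ≤ exp 2) : (y - 1) ^ 2 / 14 ≤ hf y := by
  refine le_trans ?_ (hf_ge_sqrt hy)
  have hs : 0 ≤ √y := Real.sqrt_nonneg y
  have h2 : √y * √y = y := Real.mul_self_sqrt hy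
  have he : √y ≤ 2.72 := by
    rw [Real.sqrt_le_left (by norm_num)]
    refine hy2.trans ?_
    have h1 : exp 2 = exp 1 * exp 1 := by rw [← Real.exp_add]; norm_num
    rw [h1]
    have := Real.exp_one_lt_d9
    nlinarith [Real.exp_pos 1]
  have h3 : (y - 1) ^ 2 = (√y - 1) ^ 2 * (√y + 1) ^ 2 := by
    have : (√y - 1) ^ 2 * (√y + 1) ^ 2 = (√y * √y - 1) ^ 2 := by ring
    rw [this, h2]
  rw [h3, div_le_iff₀ (by norm_num)]
  apply mul_le_mul_of_nonneg_left _ (sq_nonneg _)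
  nlinarith

theorem hf_large {y K : ℝ} (hy : exp 2 ≤ y) (hyK : y ≤ K) : (log K - 1) / K * y ^ 2 ≤ hf y := by
  have he : 0 < exp 2 := exp_pos 2
  have hy0 : 0 < y := lt_of_lt_of_le he hy
  have hK0 : 0 < K := lt_of_lt_of_le hy0 hyK
  have e1 : exp 2 = exp 1 * exp 1 := by rw [← Real.exp_add]; norm_num
  have hp : 0 < exp 1 := exp_pos 1
  have ha : exp 1 ≤ y / exp 1 := by
    rw [le_div_iff₀ hp, ← e1]; exact hy
  have hb : exp 1 ≤ K / exp 1 := ha.trans (div_le_div_of_nonneg_right hyK hp.le)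
  have h := Real.log_div_self_antitoneOn ha hb (div_le_div_of_nonneg_right hyK hp.le)
  simp only at h
  rw [Real.log_div hK0.ne' hp.ne', Real.log_div hy0.ne' hp.ne', Real.log_exp] at h
  have h2 : (log K - 1) / K ≤ (log y - 1) / y := by
    have e2 : (log K - 1) / (K / exp 1) = (log K - 1) / K * exp 1 := by field_simp
    have e3 : (log y - 1) / (y / exp 1) = (log y - 1) / y * exp 1 := by field_simp
    rw [e2, e3] at h
    exact le_of_mul_le_mul_right h hp
  calc (log K - 1) / K * y ^ 2 ≤ (log y - 1) / y * y ^ 2 :=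
        mul_le_mul_of_nonneg_right h2 (sq_nonneg y)
    _ = y * log y - y := by field_simp
    _ ≤ hf y := by unfold hf; linarith

/-- **the pointwise entropy inequality** -/
theorem hf_ge {y K : ℝ} (hy : 0 ≤ y) (hyK : y ≤ K) (hK : 1 ≤ log K)
    (h14 : (log K - 1) / K ≤ 1 / 14) : (log K - 1) / K * (y - 1) ^ 2 ≤ hf y := by
  rcases le_total y (exp 2) with h | h
  · refine le_trans ?_ (hf_small hy h)
    have := mul_le_mul_of_nonneg_right h14 (sq_nonneg (y - 1))
    linarith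
  · refine le_trans ?_ (hf_large h hyK)
    have h1 : 1 ≤ y := by
      have := Real.add_one_le_exp (2 : ℝ)
      linarith
    have hK0 : 0 < K := lt_of_lt_of_le (by linarith) hyK
    apply mul_le_mul_of_nonneg_left _ (div_nonneg (by linarith) hK0.le)
    nlinarith

/-- weight of one entry of the contingency table -/
def wt (μ : ℕ) (lam : ℝ) (x : ℕ) : ℝ :=
  (μ : ℝ) ^ x * exp (-μ) / (x.factorial : ℝ) * exp (lam * ((x : ℝ) - μ) ^ 2)

theorem wt_nonneg (μ : ℕ) (lam : ℝ) (x : ℕ) : 0 ≤ wt μ lam x := by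
  unfold wt; positivity

theorem poi_le {μ x : ℕ} (hμ : 1 ≤ μ) (hx : 1 ≤ x) :
    (μ : ℝ) ^ x * exp (-μ) / (x.factorial : ℝ) ≤ 1 / √x * exp (-(μ * hf ((x : ℝ) / μ))) := by
  have hμ0 : (0 : ℝ) < μ := by exact_mod_cast hμ
  have hx0 : (0 : ℝ) < x := by exact_mod_cast hx
  have h1 : √(x : ℝ) * ((x : ℝ) / exp 1) ^ x ≤ (x.factorial : ℝ) := by
    refine le_trans ?_ (Stirling.le_factorial_stirling x)
    apply mul_le_mul_of_nonneg_right _ (by positivity)
    apply Real.sqrt_le_sqrt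
    have := Real.pi_gt_three
    nlinarith
  have h2 : 0 < √(x : ℝ) * ((x : ℝ) / exp 1) ^ x := by
    have := Real.sqrt_pos.2 hx0
    positivity
  calc (μ : ℝ) ^ x * exp (-μ) / (x.factorial : ℝ)
      ≤ (μ : ℝ) ^ x * exp (-μ) / (√(x : ℝ) * ((x : ℝ) / exp 1) ^ x) := by
        apply div_le_div_of_nonneg_left (by positivity) h2 h1
    _ = 1 / √x * ((μ : ℝ) ^ x * exp (-μ) / ((x : ℝ) / exp 1) ^ x) := by
        have := (Real.sqrt_pos.2 hx0).ne'
        field_simp
    _ = 1 / √x * exp (-(μ * hf ((x : ℝ) / μ))) := by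
        congr 1
        have e1 : (μ : ℝ) ^ x = exp (x * log μ) := by
          rw [mul_comm, Real.exp_mul, Real.exp_log hμ0, Real.rpow_natCast]
        have e2 : ((x : ℝ) / exp 1) ^ x = exp (x * (log x - 1)) := by
          rw [mul_comm, Real.exp_mul, Real.rpow_natCast, Real.exp_sub, Real.exp_log hx0]
        rw [e1, e2, ← Real.exp_add, ← Real.exp_sub]
        congr 1
        unfold hf
        rw [Real.log_div hx0.ne' hμ0.ne']
        field_simp
        ring

theorem exp_neg_le_inv_sqrt {u : ℝ} (hu : 0 < u) : exp (-u) ≤ 1 / √u := by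
  have hs := Real.sqrt_pos.2 hu
  rw [Real.exp_neg, ← one_div]
  apply one_div_le_one_div_of_le hs
  have h1 := Real.add_one_le_exp u
  have h2 : √u * √u = u := Real.mul_self_sqrt hu.le
  nlinarith [sq_nonneg (√u - 1)]

/-- the constant in `wt_le` -/
def cw (δ : ℝ) : ℝ := √2 + √(8 / δ)

theorem cw_pos (δ : ℝ) : 0 < cw δ := by
  unfold cw
  have : 0 < √(2 : ℝ) := Real.sqrt_pos.2 (by norm_num)
  positivity

theorem wt_le {μ x : ℕ} {K δ lam : ℝ} (hμ : 1 ≤ μ) (hx : (x : ℝ) ≤ K * μ) (hK : 1 ≤ log K)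
    (h14 : (log K - 1) / K ≤ 1 / 14) (hδ : 0 < δ) (hlam : lam * μ + δ ≤ (log K - 1) / K) :
    wt μ lam x ≤ cw δ / √μ * exp (-(δ / 2 * ((x : ℝ) - μ) ^ 2 / μ)) := by
  have hμ0 : (0 : ℝ) < μ := by exact_mod_cast hμ
  have hsμ := Real.sqrt_pos.2 hμ0
  set D : ℝ := ((x : ℝ) - μ) ^ 2 with hD
  have hD0 : 0 ≤ D := sq_nonneg _
  -- the entropy inequality
  have hent : lam * D - μ * hf ((x : ℝ) / μ) ≤ -(δ * D / μ) := by
    have h1 := hf_ge (y := (x : ℝ) / μ) (K := K) (by positivity)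
      (by rw [div_le_iff₀ hμ0]; exact hx) hK h14
    have h2 : (μ : ℝ) * ((log K - 1) / K * ((x : ℝ) / μ - 1) ^ 2) = (log K - 1) / K * (D / μ) := by
      rw [hD]; field_simp
    have h3 : (log K - 1) / K * (D / μ) ≤ μ * hf ((x : ℝ) / μ) := by
      rw [← h2]; exact mul_le_mul_of_nonneg_left h1 hμ0.le
    have h4 : (lam * μ + δ) * (D / μ) ≤ (log K - 1) / K * (D / μ) :=
      mul_le_mul_of_nonneg_right hlam (by positivity)
    have h5 : (lam * μ + δ) * (D / μ) = lam * D + δ * D / μ := by field_simp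
    linarith
  have hwt : wt μ lam x ≤ (if x = 0 then 1 else 1 / √(x : ℝ)) * exp (-(δ * D / μ)) := by
    unfold wt
    rw [← hD]
    by_cases h0 : x = 0
    · subst h0
      simp only [pow_zero, one_mul, Nat.factorial_zero, Nat.cast_one, div_one, if_true]
      rw [← Real.exp_add]
      apply Real.exp_le_exp.2
      have : hf ((0 : ℕ) / (μ : ℝ)) = 1 := by unfold hf; simp
      rw [this] at hent
      linarith
    · rw [if_neg h0]
      calc (μ : ℝ) ^ x * exp (-μ) / (x.factorial : ℝ) * exp (lam * D)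
          ≤ (1 / √x * exp (-(μ * hf ((x : ℝ) / μ)))) * exp (lam * D) :=
            mul_le_mul_of_nonneg_right (poi_le hμ (by omega)) (exp_pos _).le
        _ = 1 / √x * exp (lam * D - μ * hf ((x : ℝ) / μ)) := by
            rw [mul_assoc, ← Real.exp_add]
            congr 2; ring
        _ ≤ 1 / √x * exp (-(δ * D / μ)) := by
            apply mul_le_mul_of_nonneg_left (Real.exp_le_exp.2 hent) (by positivity)
  refine hwt.trans ?_
  have hsplit : exp (-(δ * D / μ)) = exp (-(δ / 2 * D / μ)) * exp (-(δ / 2 * D / μ)) := by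
    rw [← Real.exp_add]; congr 1; ring
  have hle1 : exp (-(δ / 2 * D / μ)) ≤ 1 := by
    rw [Real.exp_le_one_iff]
    have : 0 ≤ δ / 2 * D / μ := by positivity
    linarith
  rcases Nat.lt_or_ge (2 * x) μ with hlt | hge
  · -- small x
    have hlt' : 2 * (x : ℝ) < μ := by exact_mod_cast hlt
    have hD4 : (μ : ℝ) ^ 2 / 4 ≤ D := by rw [hD]; nlinarith
    have h1 : exp (-(δ / 2 * D / μ)) ≤ √(8 / δ) / √μ := by
      have hu : 0 < δ * μ / 8 := by positivity
      have h2 : exp (-(δ / 2 * D / μ)) ≤ exp (-(δ * μ / 8)) := by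
        apply Real.exp_le_exp.2
        have : δ * μ / 8 ≤ δ / 2 * D / μ := by
          rw [le_div_iff₀ hμ0]
          nlinarith
        linarith
      refine h2.trans ((exp_neg_le_inv_sqrt hu).trans (le_of_eq ?_))
      rw [← Real.sqrt_div (by positivity), ← Real.sqrt_one, ← Real.sqrt_div (by norm_num)]
      congr 1
      field_simp
    have hs : (if x = 0 then (1 : ℝ) else 1 / √(x : ℝ)) ≤ 1 := by
      split_ifs with h0
      · exact le_rfl
      · rw [div_le_one (Real.sqrt_pos.2 (by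
          have : 0 < x := by omega
          exact_mod_cast this))]
        rw [Real.one_le_sqrt]
        have : 1 ≤ x := by omega
        exact_mod_cast this
    calc (if x = 0 then (1 : ℝ) else 1 / √(x : ℝ)) * exp (-(δ * D / μ))
        ≤ 1 * exp (-(δ * D / μ)) := mul_le_mul_of_nonneg_right hs (exp_pos _).le
      _ = exp (-(δ / 2 * D / μ)) * exp (-(δ / 2 * D / μ)) := by rw [one_mul, hsplit]
      _ ≤ √(8 / δ) / √μ * exp (-(δ / 2 * D / μ)) := mul_le_mul_of_nonneg_right h1 (exp_pos _).le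
      _ ≤ cw δ / √μ * exp (-(δ / 2 * D / μ)) := by
          apply mul_le_mul_of_nonneg_right _ (exp_pos _).le
          apply div_le_div_of_nonneg_right _ hsμ.le
          unfold cw
          linarith [Real.sqrt_nonneg (2 : ℝ)]
  · have hx1 : x ≠ 0 := by omega
    have hx0 : (0 : ℝ) < x := by
      have : 0 < x := by omega
      exact_mod_cast this
    rw [if_neg hx1]
    have hge' : (μ : ℝ) ≤ 2 * x := by exact_mod_cast hge
    have h1 : 1 / √(x : ℝ) ≤ √2 / √μ := by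
      rw [div_le_div_iff₀ (Real.sqrt_pos.2 hx0) hsμ, one_mul, ← Real.sqrt_mul (by norm_num)]
      exact Real.sqrt_le_sqrt hge'
    calc 1 / √(x : ℝ) * exp (-(δ * D / μ))
        = 1 / √(x : ℝ) * (exp (-(δ / 2 * D / μ)) * exp (-(δ / 2 * D / μ))) := by rw [hsplit]
      _ ≤ √2 / √μ * (1 * exp (-(δ / 2 * D / μ))) := by
          apply mul_le_mul h1 _ (by positivity) (by positivity)
          exact mul_le_mul_of_nonneg_right hle1 (exp_pos _).le
      _ ≤ cw δ / √μ * exp (-(δ / 2 * D / μ)) := by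
          rw [one_mul]
          apply mul_le_mul_of_nonneg_right _ (exp_pos _).le
          apply div_le_div_of_nonneg_right _ hsμ.le
          unfold cw
          linarith [Real.sqrt_nonneg (8 / δ)]

theorem wt_max {μ x : ℕ} {K δ lam : ℝ} (hμ : 1 ≤ μ) (hx : (x : ℝ) ≤ K * μ) (hK : 1 ≤ log K)
    (h14 : (log K - 1) / K ≤ 1 / 14) (hδ : 0 < δ) (hlam : lam * μ + δ ≤ (log K - 1) / K) :
    wt μ lam x ≤ cw δ / √μ := by
  refine (wt_le hμ hx hK h14 hδ hlam).trans ?_
  have hμ0 : (0 : ℝ) < μ := by exact_mod_cast hμ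
  have h1 : exp (-(δ / 2 * ((x : ℝ) - μ) ^ 2 / μ)) ≤ 1 := by
    rw [Real.exp_le_one_iff]
    have : 0 ≤ δ / 2 * ((x : ℝ) - μ) ^ 2 / μ := by positivity
    linarith
  have h2 : 0 ≤ cw δ / √μ := div_nonneg (cw_pos δ).le (Real.sqrt_nonneg _)
  calc _ ≤ cw δ / √μ * 1 := mul_le_mul_of_nonneg_left h1 h2
    _ = _ := mul_one _

theorem geom_le {r : ℝ} (h0 : 0 ≤ r) (h1 : r < 1) (s : Finset ℕ) (f : ℕ → ℕ)
    (hf : Set.InjOn f s) : ∑ x ∈ s, r ^ f x ≤ 1 / (1 - r) := by
  rw [← sum_image (f := fun d => r ^ d) (fun a ha b hb h => hf ha hb h), one_div,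
    ← tsum_geometric_of_lt_one h0 h1]
  exact (summable_geometric_of_lt_one h0 h1).sum_le_tsum _ (fun i _ => pow_nonneg h0 i)

/-- the constant in `gauss_sum` -/
def cg (a : ℝ) : ℝ := 2 * exp a * (1 + 1 / (2 * a))

theorem gauss_sum {μ : ℕ} (hμ : 1 ≤ μ) {a : ℝ} (ha : 0 < a) (M : ℕ) :
    ∑ x ∈ range M, exp (-(a * ((x : ℝ) - μ) ^ 2 / μ)) ≤ cg a * √μ := by
  have hμ0 : (0 : ℝ) < μ := by exact_mod_cast hμ
  have hsμ := Real.sqrt_pos.2 hμ0
  have hs1 : 1 ≤ √(μ : ℝ) := by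
    rw [Real.one_le_sqrt]; exact_mod_cast hμ
  have hss : √(μ : ℝ) * √μ = μ := Real.mul_self_sqrt hμ0.le
  set u : ℝ := 2 * a / √μ with hu
  have hu0 : 0 < u := by positivity
  set r : ℝ := exp (-u) with hr
  have hr0 : 0 ≤ r := (exp_pos _).le
  have hr1 : r < 1 := by rw [hr, Real.exp_lt_one_iff]; linarith
  have h1r : 1 / (1 - r) ≤ 1 + 1 / u := by
    have h2 : r ≤ 1 / (1 + u) := by
      rw [hr, Real.exp_neg, ← one_div]
      apply one_div_le_one_div_of_le (by linarith)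
      linarith [Real.add_one_le_exp u]
    have h3 : u / (1 + u) ≤ 1 - r := by
      have : u / (1 + u) = 1 - 1 / (1 + u) := by field_simp; ring
      linarith
    calc 1 / (1 - r) ≤ 1 / (u / (1 + u)) := one_div_le_one_div_of_le (by positivity) h3
      _ = 1 + 1 / u := by field_simp; ring
  have hterm : ∀ x : ℕ, ∀ d : ℕ, ((d : ℝ)) ^ 2 = ((x : ℝ) - μ) ^ 2 →
      exp (-(a * ((x : ℝ) - μ) ^ 2 / μ)) ≤ exp a * r ^ d := by
    intro x d hd
    rw [← hd, hr, ← Real.exp_nat_mul, ← Real.exp_add]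
    apply Real.exp_le_exp.2
    have h4 : 2 * (d : ℝ) / √μ - 1 ≤ (d : ℝ) ^ 2 / μ := by
      have : 0 ≤ ((d : ℝ) / √μ - 1) ^ 2 := sq_nonneg _
      have e : ((d : ℝ) / √μ - 1) ^ 2 = (d : ℝ) ^ 2 / μ - 2 * (d : ℝ) / √μ + 1 := by
        rw [sub_sq, div_pow, Real.sq_sqrt hμ0.le]
        ring
      linarith
    have h5 : a * (d : ℝ) ^ 2 / μ = a * ((d : ℝ) ^ 2 / μ) := by ring
    have h6 : (d : ℝ) * -u = -(a * (2 * (d : ℝ) / √μ)) := by rw [hu]; ring
    rw [h5, h6]
    nlinarith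
  have hsum : ∑ x ∈ range M, exp (-(a * ((x : ℝ) - μ) ^ 2 / μ)) ≤
      ∑ x ∈ (range M).filter (fun x => x < μ), exp a * r ^ (μ - x) +
      ∑ x ∈ (range M).filter (fun x => ¬ x < μ), exp a * r ^ (x - μ) := by
    rw [← sum_filter_add_sum_filter_not (range M) (fun x => x < μ)]
    apply add_le_add
    · refine sum_le_sum fun x hx => hterm x _ ?_
      rw [mem_filter] at hx
      rw [Nat.cast_sub hx.2.le]; ring
    · refine sum_le_sum fun x hx => hterm x _ ?_
      rw [mem_filter] at hx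
      rw [Nat.cast_sub (not_lt.1 hx.2)]
  refine hsum.trans ?_
  rw [← mul_sum, ← mul_sum, ← mul_add]
  have g1 : ∑ x ∈ (range M).filter (fun x => x < μ), r ^ (μ - x) ≤ 1 / (1 - r) := by
    apply geom_le hr0 hr1
    intro x hx y hy h
    simp only [coe_filter, mem_range, Set.mem_ofPred_eq] at hx hy
    have h : μ - x = μ - y := h
    omega
  have g2 : ∑ x ∈ (range M).filter (fun x => ¬ x < μ), r ^ (x - μ) ≤ 1 / (1 - r) := by
    apply geom_le hr0 hr1
    intro x hx y hy h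
    simp only [coe_filter, mem_range, Set.mem_ofPred_eq] at hx hy
    have h : x - μ = y - μ := h
    omega
  have h7 : 1 / u = √μ / (2 * a) := by rw [hu]; field_simp
  calc exp a * (∑ x ∈ (range M).filter (fun x => x < μ), r ^ (μ - x) +
        ∑ x ∈ (range M).filter (fun x => ¬ x < μ), r ^ (x - μ))
      ≤ exp a * (2 * (1 + √μ / (2 * a))) := by
        apply mul_le_mul_of_nonneg_left _ (exp_pos a).le
        rw [h7] at h1r
        linarith
    _ ≤ cg a * √μ := by
        unfold cg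
        have h8 : 1 + √μ / (2 * a) ≤ (1 + 1 / (2 * a)) * √μ := by
          have : (1 + 1 / (2 * a)) * √μ = √μ + √μ / (2 * a) := by ring
          linarith
        have h9 := mul_le_mul_of_nonneg_left h8 (by positivity : (0 : ℝ) ≤ 2 * exp a)
        linarith

theorem wt_sum {μ : ℕ} {K δ lam : ℝ} (hμ : 1 ≤ μ) (hK : 1 ≤ log K)
    (h14 : (log K - 1) / K ≤ 1 / 14) (hδ : 0 < δ) (hlam : lam * μ + δ ≤ (log K - 1) / K)
    (M : ℕ) (hM : (M : ℝ) ≤ K * μ) :
    ∑ x ∈ range (M + 1), wt μ lam x ≤ cw δ * cg (δ / 2) := by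
  have hμ0 : (0 : ℝ) < μ := by exact_mod_cast hμ
  have hsμ := Real.sqrt_pos.2 hμ0
  calc ∑ x ∈ range (M + 1), wt μ lam x
      ≤ ∑ x ∈ range (M + 1), cw δ / √μ * exp (-(δ / 2 * ((x : ℝ) - μ) ^ 2 / μ)) := by
        refine sum_le_sum fun x hx => wt_le hμ ?_ hK h14 hδ hlam
        rw [mem_range] at hx
        have : (x : ℝ) ≤ M := by exact_mod_cast (show x ≤ M by omega)
        linarith
    _ = cw δ / √μ * ∑ x ∈ range (M + 1), exp (-(δ / 2 * ((x : ℝ) - μ) ^ 2 / μ)) := by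
        rw [mul_sum]
    _ ≤ cw δ / √μ * (cg (δ / 2) * √μ) := by
        apply mul_le_mul_of_nonneg_left (gauss_sum hμ (by linarith) _)
        exact div_nonneg (cw_pos δ).le hsμ.le
    _ = cw δ * cg (δ / 2) := by field_simp

end

end Pool.Agent.W852.BL
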