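import Mathlib

/-!
# Number of colourings with a given contingency table
-/

set_option autoImplicit false

namespace Pool.Agent.W852.BL

open Finset

set_option linter.unusedSectionVars false

variable {ι κ : Type} [Fintype ι] [DecidableEq ι] [Fintype κ] [DecidableEq κ]

/-- the contingency table of two colourings -/
def tab {n : ℕ} (σ : Fin n → ι) (τ : Fin n → κ) (i : ι) (j : κ) : ℕ :=
  (univ.filter (fun v => σ v = i ∧ τ v = j)).card

/-- class sizes -/
def cls {n : ℕ} (σ : Fin n → ι) (i : ι) : ℕ := (univ.filter (fun v => σ v = i)).card

theorem cls_succ {n : ℕ} (σ : Fin (n + 1) → ι) (i : ι) :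
    cls σ i = cls (fun v => σ (Fin.succ v)) i + if σ 0 = i then 1 else 0 := by
  unfold cls
  rw [Fin.card_filter_univ_succ]
  split_ifs <;> rfl

theorem tab_succ {n : ℕ} (σ : Fin (n + 1) → ι) (τ : Fin (n + 1) → κ) (i : ι) (j : κ) :
    tab σ τ i j = tab (fun v => σ (Fin.succ v)) (fun v => τ (Fin.succ v)) i j +
      if σ 0 = i ∧ τ 0 = j then 1 else 0 := by
  unfold tab
  rw [Fin.card_filter_univ_succ]
  split_ifs <;> rfl

theorem tab_sum {n : ℕ} (σ : Fin n → ι) (τ : Fin n → κ) (i : ι) : ∑ j, tab σ τ i j = cls σ i := by
  unfold tab cls
  rw [card_eq_sum_card_fiberwise (f := τ) (t := univ) (fun _ _ => mem_univ _)]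
  refine sum_congr rfl fun j _ => ?_
  rw [filter_filter]

theorem tab_sum' {n : ℕ} (σ : Fin n → ι) (τ : Fin n → κ) (j : κ) : ∑ i, tab σ τ i j = cls τ j := by
  unfold tab cls
  rw [card_eq_sum_card_fiberwise (f := σ) (t := univ) (fun _ _ => mem_univ _)]
  refine sum_congr rfl fun i _ => ?_
  rw [filter_filter]
  congr 1
  ext v
  simp [and_comm]

/-- the colourings with table `T` -/
def TT {n : ℕ} (σ : Fin n → ι) (T : ι → κ → ℕ) : Finset (Fin n → κ) :=
  univ.filter (fun τ => ∀ i j, tab σ τ i j = T i j)

theorem mem_TT {n : ℕ} {σ : Fin n → ι} {T : ι → κ → ℕ} {τ : Fin n → κ} :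
    τ ∈ TT σ T ↔ ∀ i j, tab σ τ i j = T i j := by
  unfold TT
  rw [mem_filter]
  simp

theorem card_TT {n : ℕ} (σ : Fin n → ι) (T : ι → κ → ℕ) (hT : ∀ i, ∑ j, T i j = cls σ i) :
    (TT σ T).card * ∏ i, ∏ j, (T i j).factorial = ∏ i, (cls σ i).factorial := by
  induction n generalizing T with
  | zero =>
    have h0 : ∀ i, cls σ i = 0 := by
      intro i; unfold cls; simp
    have hT0 : ∀ i j, T i j = 0 := by
      intro i j
      have := hT i
      rw [h0, sum_eq_zero_iff] at this
      exact this j (mem_univ _)
    have : TT σ T = univ := by
      unfold TT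
      rw [filter_true_of_mem]
      intro τ _ i j
      rw [hT0]; unfold tab; simp
    rw [this]
    simp [hT0, h0]
  | succ n ih =>
    set σ' : Fin n → ι := fun v => σ (Fin.succ v) with hσ'
    set i0 := σ 0 with hi0
    -- decomposition according to the first colour
    have hcard : (TT σ T).card = ∑ j : κ, ((univ : Finset (Fin n → κ)).filter
        (fun τ' => ∀ i j', tab σ' τ' i j' + (if i0 = i ∧ j = j' then 1 else 0) = T i j')).card := by
      rw [card_eq_sum_card_fiberwise (f := fun τ => τ 0) (t := univ) (fun _ _ => mem_univ _)]
      refine sum_congr rfl fun j _ => ?_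
      refine card_bij (fun τ _ => fun v => τ (Fin.succ v)) ?_ ?_ ?_
      · intro τ hτ
        rw [mem_filter] at hτ
        obtain ⟨h1, h2⟩ := hτ
        unfold TT at h1
        rw [mem_filter] at h1
        rw [mem_filter]
        refine ⟨mem_univ _, fun i j' => ?_⟩
        rw [← h1.2 i j', tab_succ, h2]
      · intro τ hτ τ' hτ' h
        rw [mem_filter] at hτ hτ'
        funext v
        refine Fin.cases ?_ (fun v => ?_) v
        · rw [hτ.2, hτ'.2]
        · exact congrFun h v
      · intro τ' hτ'
        rw [mem_filter] at hτ'
        refine ⟨Fin.cons j τ', ?_, ?_⟩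
        · rw [mem_filter]
          refine ⟨?_, by simp⟩
          unfold TT
          rw [mem_filter]
          refine ⟨mem_univ _, fun i j' => ?_⟩
          rw [← hτ'.2 i j', tab_succ]
          simp only [Fin.cons_zero, Fin.cons_succ]
          rfl
        · funext v; simp
    have hstep : ∀ j : κ, ((univ : Finset (Fin n → κ)).filter
        (fun τ' => ∀ i j', tab σ' τ' i j' + (if i0 = i ∧ j = j' then 1 else 0) = T i j')).card *
          ∏ i, ∏ j, (T i j).factorial = T i0 j * ∏ i, (cls σ' i).factorial := by
      intro j
      by_cases h0 : T i0 j = 0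
      · rw [h0, zero_mul]
        have : ((univ : Finset (Fin n → κ)).filter
            (fun τ' => ∀ i j', tab σ' τ' i j' + (if i0 = i ∧ j = j' then 1 else 0) = T i j')) = ∅ := by
          rw [filter_eq_empty_iff]
          intro τ' _ h
          have := h i0 j
          rw [h0] at this
          simp at this
        rw [this, card_empty, zero_mul]
      · set T' : ι → κ → ℕ := fun i j' => T i j' - (if i0 = i ∧ j = j' then 1 else 0) with hT'
        have e1 : ((univ : Finset (Fin n → κ)).filter
            (fun τ' => ∀ i j', tab σ' τ' i j' + (if i0 = i ∧ j = j' then 1 else 0) = T i j')) =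
            TT σ' T' := by
          unfold TT
          refine filter_congr fun τ' _ => ?_
          refine forall_congr' fun i => forall_congr' fun j' => ?_
          rw [hT']
          simp only
          split_ifs with hc
          · obtain ⟨rfl, rfl⟩ := hc
            omega
          · omega
        have e2 : ∀ i, ∑ j', T' i j' = cls σ' i := by
          intro i
          have h1 := hT i
          rw [cls_succ] at h1
          by_cases hi : i0 = i
          · subst hi
            rw [if_pos hi0.symm] at h1
            have h2 : ∑ j', T' i0 j' + 1 = ∑ j', T i0 j' := by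
              rw [← add_sum_erase _ _ (mem_univ j), ← add_sum_erase _ (fun j' => T i0 j') (mem_univ j)]
              have h3 : T' i0 j + 1 = T i0 j := by
                rw [hT']; simp only [and_self, if_true]; omega
              have h4 : ∑ x ∈ univ.erase j, T' i0 x = ∑ x ∈ univ.erase j, T i0 x := by
                refine sum_congr rfl fun x hx => ?_
                rw [mem_erase] at hx
                rw [hT']
                simp only [true_and]
                rw [if_neg (fun h => hx.1 h.symm)]
                rfl
              rw [h4]
              omega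
            have h5 : cls σ' i0 = cls (fun v => σ v.succ) i0 := rfl
            omega
          · have h6 : ¬ σ 0 = i := fun h => hi (hi0.trans h)
            rw [if_neg h6] at h1
            have h2 : ∑ j', T' i j' = ∑ j', T i j' := by
              refine sum_congr rfl fun x _ => ?_
              rw [hT']
              simp only
              rw [if_neg (fun h => hi h.1)]
              rfl
            have h5 : cls σ' i = cls (fun v => σ v.succ) i := rfl
            omega
        have e3 : ∏ i, ∏ j, (T i j).factorial = T i0 j * ∏ i, ∏ j, (T' i j).factorial := by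
          rw [← mul_prod_erase _ _ (mem_univ i0), ← mul_prod_erase _ (fun i => ∏ j, (T' i j).factorial) (mem_univ i0)]
          have h7 : ∏ x ∈ univ.erase i0, ∏ j, (T x j).factorial =
              ∏ x ∈ univ.erase i0, ∏ j, (T' x j).factorial := by
            refine prod_congr rfl fun x hx => ?_
            rw [mem_erase] at hx
            refine prod_congr rfl fun y _ => ?_
            rw [hT']
            simp only
            rw [if_neg (fun h => hx.1 h.1.symm)]
            rfl
          have h8 : ∏ y, (T i0 y).factorial = T i0 j * ∏ y, (T' i0 y).factorial := by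
            rw [← mul_prod_erase _ _ (mem_univ j), ← mul_prod_erase _ (fun y => (T' i0 y).factorial) (mem_univ j)]
            have h9 : ∏ x ∈ univ.erase j, (T i0 x).factorial =
                ∏ x ∈ univ.erase j, (T' i0 x).factorial := by
              refine prod_congr rfl fun x hx => ?_
              rw [mem_erase] at hx
              rw [hT']
              simp only [true_and]
              rw [if_neg (fun h => hx.1 h.symm)]
              rfl
            have h10 : (T i0 j).factorial = T i0 j * (T' i0 j).factorial := by
              have : T' i0 j = T i0 j - 1 := by rw [hT']; simp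
              rw [this, Nat.mul_factorial_pred h0]
            rw [h9, h10, mul_assoc]
          rw [h7, h8, mul_assoc]
        rw [e1, e3, mul_left_comm, ih σ' T' e2]
    rw [hcard, sum_mul, sum_congr rfl (fun j _ => hstep j), ← sum_mul, hT i0]
    rw [← mul_prod_erase _ (fun i => (cls σ' i).factorial) (mem_univ i0),
      ← mul_prod_erase _ (fun i => (cls σ i).factorial) (mem_univ i0), ← mul_assoc]
    have h1 : cls σ i0 = cls σ' i0 + 1 := by
      rw [cls_succ, if_pos hi0.symm]
    have h2 : ∏ x ∈ univ.erase i0, (cls σ' x).factorial = ∏ x ∈ univ.erase i0, (cls σ x).factorial := by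
      refine prod_congr rfl fun x hx => ?_
      rw [mem_erase] at hx
      rw [cls_succ σ x, if_neg (fun h => hx.1 (hi0.trans h).symm)]
      rfl
    rw [h2, h1, Nat.factorial_succ]

end Pool.Agent.W852.BL
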