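import Pool.Agent.W852.BL.Param

/-!
# Counting form of the probability
-/

set_option autoImplicit false

namespace Pool.Agent.W852.BL

open Finset
open scoped Classical

noncomputable section

variable {Ω : Type} [Fintype Ω] {N : ℕ}

theorem pr_nat (A : (Fin N ≃ Ω) → Prop) :
    (Nat.card {e : Fin N ≃ Ω // A e} : ℝ) / (Nat.card (Fin N ≃ Ω) : ℝ) = pr A := by
  unfold pr
  rw [Nat.card_eq_fintype_card, Nat.card_eq_fintype_card, Fintype.card_subtype]

theorem pr_add {A B : (Fin N ≃ Ω) → Prop} (h : ∀ e, A e → ¬ B e) : pr A + pr B ≤ 1 := by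
  unfold pr
  rw [← add_div]
  apply div_le_one_of_le₀ _ (by positivity)
  rw [← Nat.cast_add, ← Finset.card_univ]
  have hd : Disjoint (univ.filter A) (univ.filter B) := by
    rw [Finset.disjoint_left]
    intro e he he'
    rw [mem_filter] at he he'
    exact h e he.2 he'.2
  rw [← card_union_of_disjoint hd]
  exact_mod_cast card_le_card (subset_univ _)

end

end Pool.Agent.W852.BL
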