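import Mathlib

/-!
# Random orderings: probability that the first elements avoid given sets
-/

set_option autoImplicit false

namespace Pool.Agent.W852.BL

open Finset
open scoped Classical

noncomputable section

variable {Ω : Type} [Fintype Ω] {N : ℕ}

/-- the orderings whose `i`-th element is not in `X i`, for all `i < m` -/
def avd (X : ℕ → Finset Ω) (m : ℕ) : Finset (Fin N ≃ Ω) :=
  univ.filter (fun e => ∀ i : Fin N, (i : ℕ) < m → e i ∉ X i)

theorem mem_avd {X : ℕ → Finset Ω} {m : ℕ} {e : Fin N ≃ Ω} :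
    e ∈ avd X m ↔ ∀ i : Fin N, (i : ℕ) < m → e i ∉ X i := by
  simp [avd]

theorem avd_swap {X : ℕ → Finset Ω} {m : ℕ} (a j : Fin N) (ha : m ≤ (a : ℕ)) (hj : m ≤ (j : ℕ))
    (e : Fin N ≃ Ω) (he : e ∈ avd X m) : (Equiv.swap a j).trans e ∈ avd X m := by
  rw [mem_avd] at he ⊢
  intro i hi
  have h1 : i ≠ a := by rintro rfl; omega
  have h2 : i ≠ j := by rintro rfl; omega
  rw [Equiv.trans_apply, Equiv.swap_apply_of_ne_of_ne h1 h2]
  exact he i hi

theorem card_swap {X : ℕ → Finset Ω} {m : ℕ} (a j : Fin N) (ha : m ≤ (a : ℕ)) (hj : m ≤ (j : ℕ))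
    (Y : Finset Ω) :
    ((avd X m).filter (fun e : Fin N ≃ Ω => e a ∉ Y)).card =
      ((avd X m).filter (fun e : Fin N ≃ Ω => e j ∉ Y)).card := by
  refine Finset.card_bij (fun e _ => (Equiv.swap a j).trans e) ?_ ?_ ?_
  · intro e he
    rw [mem_filter] at he ⊢
    refine ⟨avd_swap a j ha hj e he.1, ?_⟩
    rw [Equiv.trans_apply, Equiv.swap_apply_right]
    exact he.2
  · intro e _ e' _ h
    have := congrArg (fun f => (Equiv.swap a j).trans f) h
    simpa [← Equiv.trans_assoc] using this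
  · intro e he
    rw [mem_filter] at he
    refine ⟨(Equiv.swap a j).trans e, ?_, ?_⟩
    · rw [mem_filter]
      refine ⟨avd_swap a j ha hj e he.1, ?_⟩
      rw [Equiv.trans_apply, Equiv.swap_apply_left]
      exact he.2
    · rw [← Equiv.trans_assoc]
      ext i
      simp

theorem avd_succ {X : ℕ → Finset Ω} (hX : Antitone X) {m : ℕ} (hm : m < N) :
    ((avd (N := N) X (m + 1)).card : ℝ) * ((N : ℝ) - m) =
      (avd (N := N) X m).card * ((N : ℝ) - m - (X m).card) := by
  set a : Fin N := ⟨m, hm⟩ with ha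
  have h1 : avd (N := N) X (m + 1) = (avd X m).filter (fun e : Fin N ≃ Ω => e a ∉ X m) := by
    ext e
    rw [mem_avd, mem_filter, mem_avd]
    constructor
    · intro h
      exact ⟨fun i hi => h i (by omega), h a (by rw [ha]; simp)⟩
    · rintro ⟨h, h'⟩ i hi
      rcases Nat.lt_or_ge (i : ℕ) m with h3 | h3
      · exact h i h3
      · have : i = a := by rw [ha]; ext; simp only; omega
        rw [this]; exact h'
  set J : Finset (Fin N) := univ.filter (fun j => m ≤ (j : ℕ)) with hJ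
  have hJc : J.card = N - m := by
    have : J = (univ.filter (fun j : Fin N => (j : ℕ) < m))ᶜ := by
      ext j; simp [hJ]
    rw [this, card_compl, Fintype.card_fin]
    congr 1
    rw [Fin.card_filter_val_lt]
    omega
  have h2 : ∑ j ∈ J, ((avd X m).filter (fun e : Fin N ≃ Ω => e j ∉ X m)).card =
      ∑ e ∈ avd (N := N) X m, (J.filter (fun j => e j ∉ X m)).card := by
    simp only [card_filter]
    rw [sum_comm]
  have h3 : ∀ e ∈ avd (N := N) X m, (J.filter (fun j => e j ∉ X m)).card + (X m).card = N - m := by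
    intro e he
    rw [mem_avd] at he
    rw [← hJc, ← card_filter_add_card_filter_not (s := J) (fun j => e j ∉ X m)]
    congr 1
    have : J.filter (fun j => ¬ e j ∉ X m) = (X m).map e.symm.toEmbedding := by
      ext j
      rw [mem_filter, mem_map_equiv, hJ, mem_filter]
      simp only [mem_univ, true_and, not_not, Equiv.symm_symm]
      constructor
      · exact fun h => h.2
      · intro h
        refine ⟨?_, h⟩
        by_contra hlt
        exact he j (by omega) (hX (by omega : (j : ℕ) ≤ m) h)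
    rw [this, card_map]
  have h4 : ∑ j ∈ J, ((avd X m).filter (fun e : Fin N ≃ Ω => e j ∉ X m)).card =
      (N - m) * (avd (N := N) X (m + 1)).card := by
    rw [h1, ← hJc, ← smul_eq_mul, ← sum_const]
    refine sum_congr rfl ?_
    intro j hj
    rw [hJ, mem_filter] at hj
    exact (card_swap a j (by rw [ha]) hj.2 (X m)).symm
  have h5 : ((N - m : ℕ) : ℝ) = (N : ℝ) - m := by
    rw [Nat.cast_sub hm.le]
  have h6 : (((N - m) * (avd (N := N) X (m + 1)).card : ℕ) : ℝ) =
      ∑ e ∈ avd (N := N) X m, ((N : ℝ) - m - (X m).card) := by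
    rw [← h4, h2, Nat.cast_sum]
    refine sum_congr rfl ?_
    intro e he
    have := h3 e he
    have : ((J.filter (fun j => e j ∉ X m)).card : ℝ) + ((X m).card : ℝ) = (N : ℝ) - m := by
      rw [← h5]; exact_mod_cast this
    linarith
  rw [sum_const, nsmul_eq_mul, Nat.cast_mul, h5] at h6
  linarith

/-- probability of an event for a uniformly random ordering -/
def pr (A : (Fin N ≃ Ω) → Prop) : ℝ :=
  ((univ.filter A).card : ℝ) / (Fintype.card (Fin N ≃ Ω) : ℝ)

theorem pr_eq {A : (Fin N ≃ Ω) → Prop} (s : Finset (Fin N ≃ Ω)) (h : ∀ e, A e ↔ e ∈ s) :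
    pr A = (s.card : ℝ) / (Fintype.card (Fin N ≃ Ω) : ℝ) := by
  unfold pr
  congr 3
  ext e
  simp [h]

theorem pr_nonneg (A : (Fin N ≃ Ω) → Prop) : 0 ≤ pr A := by unfold pr; positivity

theorem pr_mono {A B : (Fin N ≃ Ω) → Prop} (h : ∀ e, A e → B e) : pr A ≤ pr B := by
  unfold pr
  apply div_le_div_of_nonneg_right _ (by positivity)
  exact_mod_cast card_le_card (fun e he => by
    rw [mem_filter] at he ⊢
    exact ⟨he.1, h e he.2⟩)

theorem pr_avd_zero (hN : Fintype.card Ω = N) (X : ℕ → Finset Ω) :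
    pr (fun e : Fin N ≃ Ω => e ∈ avd X 0) = 1 := by
  rw [pr_eq univ (fun e => by simp [mem_avd]), card_univ]
  have e0 : Fin N ≃ Ω := (Fintype.equivFinOfCardEq hN).symm
  have : (Fintype.card (Fin N ≃ Ω) : ℝ) ≠ 0 := by
    have : 0 < Fintype.card (Fin N ≃ Ω) := Fintype.card_pos_iff.2 ⟨e0⟩
    positivity
  exact div_self this

/-- **Avoidance probability.** -/
theorem pr_avd (hN : Fintype.card Ω = N) {X : ℕ → Finset Ω} (hX : Antitone X) {m : ℕ}
    (hm : m ≤ N) :
    pr (fun e : Fin N ≃ Ω => e ∈ avd X m) =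
      ∏ i ∈ range m, (1 - ((X i).card : ℝ) / ((N : ℝ) - i)) := by
  induction m with
  | zero => rw [pr_avd_zero hN, prod_range_zero]
  | succ m ih =>
    rw [prod_range_succ, ← ih (by omega)]
    have h := avd_succ (N := N) hX (m := m) (by omega)
    have hpos : (0 : ℝ) < (N : ℝ) - m := by
      have : (m : ℝ) < N := by exact_mod_cast (show m < N by omega)
      linarith
    rw [pr_eq (avd X (m + 1)) (fun e => Iff.rfl), pr_eq (avd X m) (fun e => Iff.rfl),
      div_mul_eq_mul_div]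
    congr 1
    have e2 : (1 - ((X m).card : ℝ) / ((N : ℝ) - m)) = ((N : ℝ) - m - (X m).card) / ((N : ℝ) - m) := by
      field_simp
    rw [e2, ← mul_div_assoc, ← h, mul_div_assoc, div_self hpos.ne', mul_one]

theorem pr_union {ι : Type} (s : Finset ι) (A : ι → (Fin N ≃ Ω) → Prop) :
    pr (fun e => ∃ i ∈ s, A i e) ≤ ∑ i ∈ s, pr (A i) := by
  rw [pr_eq (s.biUnion (fun i => univ.filter (A i))) (fun e => by simp)]
  unfold pr
  rw [← sum_div]
  apply div_le_div_of_nonneg_right _ (by positivity)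
  exact_mod_cast card_biUnion_le

/-- Cauchy-Schwarz: the probability that a nonnegative random variable is positive -/
theorem second_moment (Z : (Fin N ≃ Ω) → ℝ) (hZ : ∀ e, 0 ≤ Z e) (hcard : 0 < Fintype.card (Fin N ≃ Ω)) :
    ((∑ e, Z e) / Fintype.card (Fin N ≃ Ω)) ^ 2 ≤
      pr (fun e => 0 < Z e) * ((∑ e, Z e ^ 2) / Fintype.card (Fin N ≃ Ω)) := by
  have hc : (0 : ℝ) < (Fintype.card (Fin N ≃ Ω) : ℝ) := by exact_mod_cast hcard
  have h1 : ∑ e, Z e = ∑ e ∈ univ.filter (fun e => 0 < Z e), Z e := by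
    rw [sum_filter]
    refine sum_congr rfl fun e _ => ?_
    split_ifs with h
    · rfl
    · exact le_antisymm (not_lt.1 h) (hZ e)
  have h2 : (∑ e, Z e) ^ 2 ≤ ((univ.filter (fun e => 0 < Z e)).card : ℝ) * ∑ e, Z e ^ 2 := by
    rw [h1]
    refine (sq_sum_le_card_mul_sum_sq).trans ?_
    apply mul_le_mul_of_nonneg_left _ (by positivity)
    exact sum_le_sum_of_subset_of_nonneg (filter_subset _ _) (fun e _ _ => sq_nonneg _)
  unfold pr
  rw [div_pow, div_mul_div_comm, ← sq]
  exact div_le_div_of_nonneg_right h2 (by positivity)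

/-- **second moment method** -/
theorem pz {κ : Type} (B : Finset κ) (good : κ → (Fin N ≃ Ω) → Prop) (e0 : Fin N ≃ Ω) :
    (∑ σ ∈ B, pr (good σ)) ^ 2 ≤
      pr (fun e => ∃ σ ∈ B, good σ e) * ∑ σ ∈ B, ∑ τ ∈ B, pr (fun e => good σ e ∧ good τ e) := by
  have hcard : 0 < Fintype.card (Fin N ≃ Ω) := Fintype.card_pos_iff.2 ⟨e0⟩
  have hc : (0 : ℝ) < (Fintype.card (Fin N ≃ Ω) : ℝ) := by exact_mod_cast hcard
  set Z : (Fin N ≃ Ω) → ℝ := fun e => ∑ σ ∈ B, if good σ e then 1 else 0 with hZ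
  have hZ0 : ∀ e, 0 ≤ Z e := fun e => sum_nonneg fun σ _ => by split_ifs <;> norm_num
  have hpr : ∀ A : (Fin N ≃ Ω) → Prop,
      pr A = (∑ e, if A e then (1 : ℝ) else 0) / (Fintype.card (Fin N ≃ Ω) : ℝ) := by
    intro A
    unfold pr
    rw [sum_boole]
  have h1 : (∑ e, Z e) / (Fintype.card (Fin N ≃ Ω) : ℝ) = ∑ σ ∈ B, pr (good σ) := by
    simp only [hZ, hpr]
    rw [sum_comm, sum_div]
  have h2 : (∑ e, Z e ^ 2) / (Fintype.card (Fin N ≃ Ω) : ℝ) =
      ∑ σ ∈ B, ∑ τ ∈ B, pr (fun e => good σ e ∧ good τ e) := by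
    have e1 : ∀ e, Z e ^ 2 = ∑ σ ∈ B, ∑ τ ∈ B, if good σ e ∧ good τ e then (1 : ℝ) else 0 := by
      intro e
      rw [hZ]
      simp only
      rw [sq, sum_mul_sum]
      refine sum_congr rfl fun σ _ => sum_congr rfl fun τ _ => ?_
      by_cases h3 : good σ e <;> by_cases h4 : good τ e <;> simp [h3, h4]
    simp only [e1, hpr]
    rw [sum_comm, sum_div]
    refine sum_congr rfl fun σ _ => ?_
    rw [sum_comm, sum_div]
    refine sum_congr rfl fun τ _ => ?_
    congr 1
    refine sum_congr rfl fun e _ => ?_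
    congr
  have h5 := second_moment Z hZ0 hcard
  have h6 : pr (fun e => 0 < Z e) ≤ pr (fun e => ∃ σ ∈ B, good σ e) := by
    refine pr_mono fun e he => ?_
    by_contra hcon
    push Not at hcon
    have : Z e = 0 := sum_eq_zero fun σ hσ => by rw [if_neg (hcon σ hσ)]
    rw [this] at he
    exact lt_irrefl _ he
  rw [h1, h2] at h5
  refine h5.trans ?_
  apply mul_le_mul_of_nonneg_right h6
  exact sum_nonneg fun σ _ => sum_nonneg fun τ _ => pr_nonneg _

end

end Pool.Agent.W852.BL
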