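import Pool.Agent.W852.BL.Sec

/-!
# Monochromatic pairs
-/

set_option autoImplicit false

namespace Pool.Agent.W852.BL

open Finset Real
open scoped Classical

noncomputable section

/-- the pairs of vertices -/
abbrev Om (n : ℕ) : Type := ↥(⊤ : SimpleGraph (Fin n)).edgeSet

theorem card_Om (n : ℕ) : Fintype.card (Om n) = n.choose 2 := by
  have h := SimpleGraph.card_edgeFinset_top_eq_card_choose_two (V := Fin n)
  rw [Fintype.card_fin] at h
  rw [← h, SimpleGraph.edgeFinset_card]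

/-- the monochromatic pairs -/
def Fm {n : ℕ} {κ : Type} (f : Fin n → κ) : Finset (Om n) :=
  univ.filter (fun e => (Sym2.map f e.val).IsDiag)

theorem mem_Fm {n : ℕ} {κ : Type} {f : Fin n → κ} {e : Om n} :
    e ∈ Fm f ↔ (Sym2.map f e.val).IsDiag := by simp [Fm]

theorem card_Fm {n : ℕ} {κ : Type} [Fintype κ] [DecidableEq κ] (f : Fin n → κ) :
    (Fm f).card = ∑ c, (cls f c).choose 2 := by
  have h1 : (Fm f).map (Function.Embedding.subtype _) =
      (univ : Finset κ).biUnion (fun c => (univ.filter (fun v => f v = c)).offDiag.image (fun p => s(p.1, p.2))) := by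
    ext e
    induction e with
    | _ u v =>
      rw [mem_map, mem_biUnion]
      constructor
      · rintro ⟨a, ha, hae⟩
        rw [mem_Fm] at ha
        have hae : a.val = s(u, v) := hae
        rw [hae, Sym2.map_mk, Sym2.mk_isDiag_iff] at ha
        have hne : u ≠ v := by
          have := a.2
          rw [hae, SimpleGraph.mem_edgeSet, SimpleGraph.top_adj] at this
          exact this
        refine ⟨f u, mem_univ _, ?_⟩
        rw [mem_image]
        refine ⟨(u, v), ?_, rfl⟩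
        rw [mem_offDiag, mem_filter, mem_filter]
        exact ⟨⟨mem_univ _, rfl⟩, ⟨mem_univ _, ha.symm⟩, hne⟩
      · rintro ⟨c, _, hc⟩
        rw [mem_image] at hc
        obtain ⟨⟨a, b⟩, hab, he⟩ := hc
        rw [mem_offDiag, mem_filter, mem_filter] at hab
        obtain ⟨⟨_, h1⟩, ⟨_, h2⟩, h3⟩ := hab
        refine ⟨⟨s(a, b), ?_⟩, ?_, he⟩
        · rw [SimpleGraph.mem_edgeSet, SimpleGraph.top_adj]; exact h3
        · rw [mem_Fm, Sym2.map_mk, Sym2.mk_isDiag_iff]
          exact h1.trans h2.symm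
  rw [← card_map, h1, card_biUnion]
  · refine sum_congr rfl fun c _ => ?_
    exact Sym2.card_image_offDiag _
  · intro c _ c' _ hcc
    rw [Function.onFun, disjoint_left]
    intro e he he'
    rw [mem_image] at he he'
    obtain ⟨⟨a, b⟩, hab, rfl⟩ := he
    obtain ⟨⟨a', b'⟩, hab', he⟩ := he'
    rw [mem_offDiag, mem_filter, mem_filter] at hab hab'
    simp only [Sym2.eq_iff] at he
    apply hcc
    rcases he with ⟨h1, _⟩ | ⟨h1, _⟩
    · rw [← hab.1.2, ← hab'.1.2]
      exact congrArg f h1.symm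
    · rw [← hab.2.1.2, ← hab'.1.2]
      exact congrArg f h1.symm

theorem cls_prod {n K : ℕ} (σ τ : Fin n → Fin (K + 1)) (i j : Fin (K + 1)) :
    cls (fun v => (σ v, τ v)) (i, j) = tab σ τ i j := by
  unfold cls tab
  congr 1
  ext v
  simp

theorem card_Fm_Bal {n K l : ℕ} {σ : Fin n → Fin (K + 1)} (hn : n = (K + 1) * l)
    (hσ : σ ∈ Bal n K l) : ((Fm σ).card : ℝ) = n * ((l : ℝ) - 1) / 2 := by
  rw [card_Fm]
  push_cast
  rw [sum_congr rfl (fun c _ => by rw [mem_Bal.1 hσ c])]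
  rw [sum_const, card_univ, Fintype.card_fin, nsmul_eq_mul, Nat.cast_choose_two, hn]
  push_cast; ring

theorem card_union_Bal {n K l μ : ℕ} {σ τ : Fin n → Fin (K + 1)} (hl : l = (K + 1) * μ)
    (hn : n = (K + 1) * l) (hσ : σ ∈ Bal n K l) (hτ : τ ∈ Bal n K l) :
    ((Fm σ ∪ Fm τ).card : ℝ) = n * ((l : ℝ) - 1) - (Dv μ σ τ + μ * n - n) / 2 := by
  have h1 : (Fm σ ∩ Fm τ) = Fm (fun v => (σ v, τ v)) := by
    ext e
    rw [mem_inter, mem_Fm, mem_Fm, mem_Fm]
    obtain ⟨e, he⟩ := e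
    induction e with
    | _ u v => simp [Sym2.map_mk, Sym2.mk_isDiag_iff, Prod.ext_iff]
  have h2 : ((Fm σ ∩ Fm τ).card : ℝ) = (Dv μ σ τ + μ * n - n) / 2 := by
    rw [h1, card_Fm, Fintype.sum_prod_type]
    push_cast
    simp only [cls_prod, Nat.cast_choose_two]
    have h3 : ∀ i, ∑ j, (tab σ τ i j : ℝ) = l := by
      intro i
      have := tab_sum σ τ i
      rw [mem_Bal.1 hσ i] at this
      exact_mod_cast this
    have h4 : ∑ i, ∑ j, (tab σ τ i j : ℝ) = n := by
      rw [sum_congr rfl (fun i _ => h3 i), sum_const, card_univ, Fintype.card_fin, nsmul_eq_mul, hn]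
      push_cast; ring
    have h5 : Dv μ σ τ = ∑ i, ∑ j, (tab σ τ i j : ℝ) ^ 2 - μ * n := by
      unfold Dv
      have e : ∀ i j, ((tab σ τ i j : ℝ) - μ) ^ 2 =
          (tab σ τ i j : ℝ) ^ 2 - 2 * μ * (tab σ τ i j : ℝ) + (μ : ℝ) ^ 2 := by
        intro i j; ring
      simp only [e, sum_add_distrib, sum_sub_distrib, ← mul_sum]
      rw [h4]
      simp only [sum_const, card_univ, Fintype.card_fin, nsmul_eq_mul]
      have : (n : ℝ) = ((K : ℝ) + 1) * (((K : ℝ) + 1) * μ) := by rw [hn, hl]; push_cast; ring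
      push_cast
      rw [this]; ring
    have h6 : ∑ i, ∑ j, (tab σ τ i j : ℝ) * ((tab σ τ i j : ℝ) - 1) / 2 =
        (∑ i, ∑ j, (tab σ τ i j : ℝ) ^ 2 - ∑ i, ∑ j, (tab σ τ i j : ℝ)) / 2 := by
      rw [← sum_sub_distrib, sum_div]
      refine sum_congr rfl fun i _ => ?_
      rw [← sum_sub_distrib, sum_div]
      refine sum_congr rfl fun j _ => ?_
      ring
    rw [h6, h4, h5]; ring
  have h3 := card_union_add_card_inter (Fm σ) (Fm τ)
  have h4 : ((Fm σ ∪ Fm τ).card : ℝ) + ((Fm σ ∩ Fm τ).card : ℝ) = (Fm σ).card + (Fm τ).card := by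
    exact_mod_cast h3
  rw [h2, card_Fm_Bal hn hσ, card_Fm_Bal hn hτ] at h4
  linarith

/-- the probability that a balanced colouring is proper after `m` steps -/
def P1 (n l m : ℕ) : ℝ :=
  ∏ i ∈ range m, (1 - (n * ((l : ℝ) - 1) / 2) / (((n.choose 2 : ℕ) : ℝ) - i))

theorem pr_proper {n K l m : ℕ} {σ : Fin n → Fin (K + 1)} (hn : n = (K + 1) * l)
    (hσ : σ ∈ Bal n K l) (hm : m ≤ n.choose 2) :
    pr (fun e : Fin (n.choose 2) ≃ Om n => e ∈ avd (fun _ => Fm σ) m) = P1 n l m := by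
  rw [pr_avd (card_Om n) (fun _ _ _ => le_rfl) hm]
  unfold P1
  refine prod_congr rfl fun i _ => ?_
  rw [card_Fm_Bal hn hσ]

/-- the exponent in the second moment -/
def lamb (n l m : ℕ) : ℝ :=
  m * ((n.choose 2 : ℕ) : ℝ) / (2 * (((n.choose 2 : ℕ) : ℝ) - m - n * ((l : ℝ) - 1) / 2) ^ 2)

theorem pr_two {n K l μ m : ℕ} {σ τ : Fin n → Fin (K + 1)} (hl : l = (K + 1) * μ)
    (hn : n = (K + 1) * l) (hμ : 1 ≤ μ) (hσ : σ ∈ Bal n K l) (hτ : τ ∈ Bal n K l)
    (hm : n * (l - 1) + m < n.choose 2) :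
    pr (fun e : Fin (n.choose 2) ≃ Om n => e ∈ avd (fun _ => Fm σ ∪ Fm τ) m) ≤
      P1 n l m ^ 2 * exp (lamb n l m * Dv μ σ τ) := by
  have hμ1 : (1 : ℝ) ≤ μ := by exact_mod_cast hμ
  have hl1 : 1 ≤ l := by rw [hl]; exact Nat.mul_pos (by omega) hμ
  have hn1 : 1 ≤ n := by rw [hn]; exact Nat.mul_pos (by omega) hl1
  have hlr : (l : ℝ) = ((K : ℝ) + 1) * μ := by rw [hl]; push_cast; ring
  have hnr : (n : ℝ) = ((K : ℝ) + 1) ^ 2 * μ := by rw [hn, hl]; push_cast; ring
  have hl1' : (1 : ℝ) ≤ l := by exact_mod_cast hl1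
  have hn1' : (1 : ℝ) ≤ n := by exact_mod_cast hn1
  have hK0 : (0 : ℝ) ≤ K := by positivity
  set N : ℝ := ((n.choose 2 : ℕ) : ℝ) with hN
  have hNr : N = n * (n - 1) / 2 := by rw [hN, Nat.cast_choose_two]
  set F : ℝ := n * ((l : ℝ) - 1) / 2 with hF
  set D : ℝ := Dv μ σ τ with hD
  have hD0 : 0 ≤ D := by
    rw [hD]; unfold Dv
    exact sum_nonneg fun i _ => sum_nonneg fun j _ => sq_nonneg _
  have hmN : 2 * F + m < N := by
    have : ((n * (l - 1) + m : ℕ) : ℝ) < ((n.choose 2 : ℕ) : ℝ) := by exact_mod_cast hm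
    rw [Nat.cast_add, Nat.cast_mul, Nat.cast_sub hl1] at this
    rw [hF, hN]
    push_cast at this ⊢
    linarith
  have hF0 : 0 ≤ F := by rw [hF]; apply div_nonneg _ (by norm_num); apply mul_nonneg <;> linarith
  have hm0 : (0 : ℝ) ≤ m := by positivity
  set A : ℝ := N - m - F with hA
  have hA0 : 0 < A := by rw [hA]; linarith
  rw [pr_avd (card_Om n) (fun _ _ _ => le_rfl) (by omega)]
  have hcard := card_union_Bal hl hn hσ hτ
  rw [hcard]
  set G : ℝ := (D + μ * n - n) / 2 with hG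
  have hG0 : 0 ≤ G := by
    rw [hG]
    apply div_nonneg _ (by norm_num)
    nlinarith
  have hkey : G * N - F ^ 2 ≤ D * N / 2 := by
    have e : D * N / 2 - (G * N - F ^ 2) = n * (μ * K ^ 2) * n / 4 := by
      rw [hG, hF, hNr, hlr, hnr]; ring
    have : 0 ≤ n * ((μ : ℝ) * K ^ 2) * n / 4 := by positivity
    linarith
  have hfac : ∀ i ∈ range m, 0 ≤ 1 - (n * ((l : ℝ) - 1) - G) / (N - i) ∧
      1 - (n * ((l : ℝ) - 1) - G) / (N - i) ≤
        (1 - F / (N - i)) ^ 2 * exp (D * N / (2 * A ^ 2)) := by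
    intro i hi
    rw [mem_range] at hi
    have him : (i : ℝ) ≤ m := by exact_mod_cast hi.le
    set N' : ℝ := N - i with hN'
    have hN'0 : 0 < N' := by rw [hN']; linarith
    have hAN : A ≤ N' - F := by rw [hA, hN']; linarith
    have hNF : 0 < N' - F := by linarith
    have h2F : n * ((l : ℝ) - 1) = 2 * F := by rw [hF]; ring
    rw [h2F]
    constructor
    · rw [sub_nonneg, div_le_one hN'0]
      rw [hN']
      linarith
    · have e1 : 1 - (2 * F - G) / N' = (1 - F / N') ^ 2 * (1 + (G * N' - F ^ 2) / (N' - F) ^ 2) := by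
        have e2 : 1 - F / N' = (N' - F) / N' := by field_simp
        rw [e2, div_pow]
        field_simp
        ring
      rw [e1]
      apply mul_le_mul_of_nonneg_left _ (sq_nonneg _)
      have h1 : (G * N' - F ^ 2) / (N' - F) ^ 2 ≤ D * N / (2 * A ^ 2) := by
        have h2 : G * N' ≤ G * N := mul_le_mul_of_nonneg_left (by rw [hN']; linarith [Nat.cast_nonneg (α := ℝ) i]) hG0
        have hNn : 0 ≤ N := by linarith
        calc (G * N' - F ^ 2) / (N' - F) ^ 2 ≤ (D * N / 2) / (N' - F) ^ 2 := by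
              apply div_le_div_of_nonneg_right _ (sq_nonneg _)
              linarith
          _ ≤ (D * N / 2) / A ^ 2 := by
              apply div_le_div_of_nonneg_left (by positivity) (by positivity)
              exact pow_le_pow_left₀ hA0.le hAN 2
          _ = D * N / (2 * A ^ 2) := by field_simp
      have h3 := Real.add_one_le_exp (D * N / (2 * A ^ 2))
      linarith
  calc ∏ i ∈ range m, (1 - (n * ((l : ℝ) - 1) - G) / (N - i))
      ≤ ∏ i ∈ range m, ((1 - F / (N - i)) ^ 2 * exp (D * N / (2 * A ^ 2))) :=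
        prod_le_prod (fun i hi => (hfac i hi).1) (fun i hi => (hfac i hi).2)
    _ = P1 n l m ^ 2 * exp (lamb n l m * D) := by
        rw [prod_mul_distrib, prod_const, card_range, prod_pow, ← Real.exp_nat_mul]
        congr 2
        unfold lamb
        rw [← hF, ← hN, ← hA]
        ring

theorem P1_pos {n K l μ m : ℕ} (hl : l = (K + 1) * μ) (hn : n = (K + 1) * l) (hμ : 1 ≤ μ)
    (hm : n * (l - 1) + m < n.choose 2) : 0 < P1 n l m := by
  have hl1 : 1 ≤ l := by rw [hl]; exact Nat.mul_pos (by omega) hμ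
  have hn1 : 1 ≤ n := by rw [hn]; exact Nat.mul_pos (by omega) hl1
  have hl1' : (1 : ℝ) ≤ l := by exact_mod_cast hl1
  have hn1' : (1 : ℝ) ≤ n := by exact_mod_cast hn1
  unfold P1
  refine prod_pos fun i hi => ?_
  rw [mem_range] at hi
  have him : (i : ℝ) ≤ m := by exact_mod_cast hi.le
  have h1 : ((n * (l - 1) + m : ℕ) : ℝ) < ((n.choose 2 : ℕ) : ℝ) := by exact_mod_cast hm
  rw [Nat.cast_add, Nat.cast_mul, Nat.cast_sub hl1] at h1
  push_cast at h1
  have h2 : 0 ≤ (n : ℝ) * ((l : ℝ) - 1) := mul_nonneg (by linarith) (by linarith)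
  rw [sub_pos, div_lt_one (by linarith)]
  linarith

/-- **second moment method for balanced colourings** -/
theorem exists_good {n K l μ m : ℕ} (hl : l = (K + 1) * μ) (hn : n = (K + 1) * l) (hμ : 1 ≤ μ)
    {δ : ℝ} (hK : 1 ≤ log ((K : ℝ) + 1))
    (h14 : (log ((K : ℝ) + 1) - 1) / ((K : ℝ) + 1) ≤ 1 / 14)
    (hδ : 0 < δ) (hlam : lamb n l m * μ + δ ≤ (log ((K : ℝ) + 1) - 1) / ((K : ℝ) + 1))
    (hm : n * (l - 1) + m < n.choose 2)
    (good : (Fin n → Fin (K + 1)) → (Fin (n.choose 2) ≃ Om n) → Prop)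
    (hgood : ∀ σ e, good σ e → e ∈ avd (fun _ => Fm σ) m)
    (hhalf : ∀ σ ∈ Bal n K l, P1 n l m / 2 ≤ pr (good σ)) :
    1 / (4 * CC K δ) ≤ pr (fun e => ∃ σ ∈ Bal n K l, good σ e) := by
  have hP := P1_pos hl hn hμ hm
  have hCC := CC_pos K hδ
  have e0 : Fin (n.choose 2) ≃ Om n := (Fintype.equivFinOfCardEq (card_Om n)).symm
  set B := Bal n K l with hB
  have hBpos : (0 : ℝ) < B.card := by
    have h := card_Bal (n := n) (K := K) (l := l) hn
    have h2 : (0 : ℝ) < n.factorial := by positivity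
    rw [← h] at h2
    exact pos_of_mul_pos_left h2 (by positivity)
  have h3 : (B.card : ℝ) * (P1 n l m / 2) ≤ ∑ σ ∈ B, pr (good σ) := by
    rw [← nsmul_eq_mul, ← sum_const]
    exact sum_le_sum hhalf
  have h4 : ∑ σ ∈ B, ∑ τ ∈ B, pr (fun e => good σ e ∧ good τ e) ≤
      P1 n l m ^ 2 * (CC K δ * B.card) * B.card := by
    calc _ ≤ ∑ σ ∈ B, P1 n l m ^ 2 * (CC K δ * B.card) := by
          refine sum_le_sum fun σ hσ => ?_
          calc _ ≤ ∑ τ ∈ B, P1 n l m ^ 2 * exp (lamb n l m * Dv μ σ τ) := by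
                refine sum_le_sum fun τ hτ => ?_
                refine le_trans (pr_mono ?_) (pr_two hl hn hμ hσ hτ hm)
                rintro e ⟨g1, g2⟩
                have g1 := hgood σ e g1
                have g2 := hgood τ e g2
                rw [mem_avd] at g1 g2 ⊢
                intro i hi
                rw [mem_union]
                exact fun h => h.elim (g1 i hi) (g2 i hi)
            _ = P1 n l m ^ 2 * ∑ τ ∈ B, exp (lamb n l m * Dv μ σ τ) := by rw [mul_sum]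
            _ ≤ _ := by
                apply mul_le_mul_of_nonneg_left _ (sq_nonneg _)
                exact sum_exp_le hl hn hμ hK h14 hδ hlam hσ
      _ = _ := by rw [sum_const, nsmul_eq_mul]; ring
  have h5 := pz B good e0
  have h7 : ((B.card : ℝ) * (P1 n l m / 2)) ^ 2 ≤
      pr (fun e => ∃ σ ∈ B, good σ e) * (P1 n l m ^ 2 * (CC K δ * B.card) * B.card) := by
    refine (pow_le_pow_left₀ (by positivity) h3 2).trans (h5.trans ?_)
    exact mul_le_mul_of_nonneg_left h4 (pr_nonneg _)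
  rw [div_le_iff₀ (by positivity)]
  have h8 : 0 < (B.card : ℝ) ^ 2 * P1 n l m ^ 2 := by positivity
  have h9 : ((B.card : ℝ) ^ 2 * P1 n l m ^ 2) * 1 ≤
      ((B.card : ℝ) ^ 2 * P1 n l m ^ 2) * (pr (fun e => ∃ σ ∈ B, good σ e) * (4 * CC K δ)) := by
    nlinarith
  exact le_of_mul_le_mul_left h9 h8

end

end Pool.Agent.W852.BL
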