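import Pool.Agent.W852.BL.Asm

/-!
# Choice of the parameters
-/

set_option autoImplicit false

namespace Pool.Agent.W852.BL

open Finset Real
open scoped Classical

noncomputable section

theorem par_a {k L l n μ : ℝ} (hkL8 : 1000 * L ≤ k) (hL : 1000000 ≤ L) (hlr : l = k * μ)
    (hnr : n = k * l) (hn1 : 1 ≤ n) (hμ : 2 * L ≤ μ) :
    n * (l - 1) + (k * L - 2 * k) * n < n * (n - 1) / 2 := by
  have hk0 : 0 < k := by linarith
  have h3 : k * (2 * L) ≤ k * μ := mul_le_mul_of_nonneg_left hμ hk0.le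
  have h2 : (l - 1) + (k * L - 2 * k) < (n - 1) / 2 := by
    rw [hnr, hlr]
    have h4 : 4 * (k * μ) ≤ k * (k * μ) := by
      apply mul_le_mul_of_nonneg_right (by linarith)
      apply mul_nonneg hk0.le; linarith
    have h5 : 0 < k * μ := by apply mul_pos hk0; linarith
    have h6 : k * (2 * L) = 2 * (k * L) := by ring
    rw [h6] at h3
    linarith
  have := mul_lt_mul_of_pos_left h2 (by linarith : 0 < n)
  linarith

theorem par_b {k L l n μ A : ℝ} (hk0 : 0 < k) (hn0 : 0 < n) (hμ : 2 * L ≤ μ)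
    (hnl : n - l = (k - 1) * l) (hlr : l = k * μ)
    (h1 : n * (n - l) / 2 - (k * L - 2 * k) * n ≤ A) : n * k * μ * (k - 2) / 2 ≤ A := by
  refine le_trans ?_ h1
  rw [hnl, hlr]
  have h2 : 0 ≤ n * k * (μ / 2 - (L - 2)) := by
    apply mul_nonneg (by positivity); linarith
  have e : n * ((k - 1) * (k * μ)) / 2 - (k * L - 2 * k) * n - n * k * μ * (k - 2) / 2 =
      n * k * (μ / 2 - (L - 2)) := by ring
  linarith

theorem par_c {k L : ℝ} (hkL8 : 1000 * L ≤ k) (hL : 1000000 ≤ L) :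
    k * (L - 2) / (k - 2) ^ 2 + 1 / (2 * k) ≤ (L - 1) / k := by
  have hkpos : 0 < k := by linarith
  have hk2 : 0 < k - 2 := by linarith
  have h1 : k * (L - 2) / (k - 2) ^ 2 ≤ (L - 3 / 2) / k := by
    rw [div_le_div_iff₀ (by positivity) hkpos]
    have e : (L - 3 / 2) * (k - 2) ^ 2 - k * (L - 2) * k =
        k * (k / 2 - 4 * (L - 3 / 2)) + 4 * (L - 3 / 2) := by ring
    have h2 : 0 ≤ k * (k / 2 - 4 * (L - 3 / 2)) := by
      apply mul_nonneg hkpos.le; linarith
    linarith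
  have h2 : (L - 1) / k = (L - 3 / 2) / k + 1 / (2 * k) := by field_simp; ring
  linarith

theorem par_d {k L n m0 m1 : ℝ} (hkL8 : 1000 * L ≤ k) (hL : 1000000 ≤ L) (hn1 : 1 ≤ n)
    (hm0 : m0 = m1 - k * n) (h1 : (k * L - 2 * k) * n - 1 < m1) :
    2 * L - 7 ≤ 2 * m0 / ((k - 1) * n) := by
  have hk1 : 0 < k - 1 := by linarith
  rw [le_div_iff₀ (by positivity), hm0]
  have e : 2 * ((k * L - 2 * k) * n - 1 - k * n) - (2 * L - 7) * ((k - 1) * n) =
      n * (k + 2 * L - 7) - 2 := by ring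
  have h2 : 1 * (k + 2 * L - 7) ≤ n * (k + 2 * L - 7) :=
    mul_le_mul_of_nonneg_right hn1 (by linarith)
  linarith

theorem par_e {k L n m0 m1 : ℝ} (hkL8 : 1000 * L ≤ k) (hL : 1000000 ≤ L) (hn1 : 1 ≤ n)
    (hm0 : m0 = m1 - k * n) (h1 : m1 ≤ (k * L - 2 * k) * n) :
    2 * m0 / ((k - 1) * n) ≤ 2 * L := by
  have hk1 : 0 < k - 1 := by linarith
  rw [div_le_iff₀ (by positivity), hm0]
  have h2 : 0 ≤ n * (6 * k - 2 * L) := by
    apply mul_nonneg (by linarith); linarith
  have e : 2 * L * ((k - 1) * n) - 2 * ((k * L - 2 * k) * n - k * n) = n * (6 * k - 2 * L) := by ring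
  linarith

/-- everything numerical -/
theorem params {K μ l n m1 m0 : ℕ} (hL : 1000000 ≤ log ((K : ℝ) + 1))
    (hμ : 2 * log ((K : ℝ) + 1) ≤ μ) (hl : l = (K + 1) * μ) (hn : n = (K + 1) * l)
    (hm1 : m1 = ⌊(((K : ℝ) + 1) * log ((K : ℝ) + 1) - 2 * ((K : ℝ) + 1)) * n⌋₊)
    (hm0 : m0 = m1 - (K + 1) * n) :
    1 ≤ μ ∧ 1 ≤ l ∧ m0 + (K + 1) * n = m1 ∧ n * (l - 1) + m1 < n.choose 2 ∧
    1 ≤ log ((K : ℝ) + 1) ∧ (log ((K : ℝ) + 1) - 1) / ((K : ℝ) + 1) ≤ 1 / 14 ∧
    0 < 1 / (2 * ((K : ℝ) + 1)) ∧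
    lamb n l m1 * μ + 1 / (2 * ((K : ℝ) + 1)) ≤ (log ((K : ℝ) + 1) - 1) / ((K : ℝ) + 1) ∧
    2 * log ((K : ℝ) + 1) - 7 ≤ m0 / (n * ((n : ℝ) - l) / 2) * l ∧
    m0 / (n * ((n : ℝ) - l) / 2) * l ≤ 2 * log ((K : ℝ) + 1) ∧
    ((2 : ℝ) ^ (K + 1) + ((K : ℝ) + 1) ^ 2) * exp (-l) ≤ 1 / 2 := by
  set k : ℝ := (K : ℝ) + 1 with hk
  set L : ℝ := log k with hLdef
  have hkpos : 0 < k := by positivity
  have hexp : exp L = k := by rw [hLdef, Real.exp_log hkpos]
  have hkL : L ^ 2 / 2 ≤ k := by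
    rw [← hexp]
    have := Real.quadratic_le_exp_of_nonneg (x := L) (by linarith)
    nlinarith
  have hkL8 : 1000 * L ≤ k := by nlinarith
  have hk1 : 1000000000 ≤ k := by linarith
  have hμ1 : 1 ≤ μ := by
    have : (1 : ℝ) ≤ μ := by linarith
    exact_mod_cast this
  have hμr : (1 : ℝ) ≤ μ := by exact_mod_cast hμ1
  have hl1 : 1 ≤ l := by rw [hl]; exact Nat.mul_pos (by omega) hμ1
  have hn1 : 1 ≤ n := by rw [hn]; exact Nat.mul_pos (by omega) hl1
  have hlr : (l : ℝ) = k * μ := by rw [hl, hk]; push_cast; ring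
  have hnr : (n : ℝ) = k * l := by rw [hn, hk]; push_cast; ring
  have hl0 : (0 : ℝ) < l := by exact_mod_cast hl1
  have hn0 : (0 : ℝ) < n := by exact_mod_cast hn1
  have hn1r : (1 : ℝ) ≤ n := by exact_mod_cast hn1
  have hx0 : 0 ≤ (k * L - 2 * k) * n := by
    apply mul_nonneg _ hn0.le
    nlinarith
  have hm1le : (m1 : ℝ) ≤ (k * L - 2 * k) * n := by rw [hm1]; exact Nat.floor_le hx0
  have hm1ge : (k * L - 2 * k) * n - 1 < m1 := by
    have := Nat.lt_floor_add_one ((k * L - 2 * k) * n)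
    rw [← hm1] at this
    linarith
  have hkn : (((K + 1) * n : ℕ) : ℝ) = k * n := by rw [hk]; push_cast; ring
  have hle : (K + 1) * n ≤ m1 := by
    have : (((K + 1) * n : ℕ) : ℝ) ≤ m1 := by
      rw [hkn]
      have : k * n + 1 ≤ (k * L - 2 * k) * n := by
        have h1 : 1 ≤ k * n := by nlinarith
        nlinarith
      linarith
    exact_mod_cast this
  have hsum : m0 + (K + 1) * n = m1 := by omega
  have hm0r : (m0 : ℝ) = m1 - k * n := by
    have : ((m0 + (K + 1) * n : ℕ) : ℝ) = m1 := by exact_mod_cast hsum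
    rw [Nat.cast_add, hkn] at this
    linarith
  have hnl : (n : ℝ) - l = (k - 1) * l := by rw [hnr]; ring
  have hk10 : 0 < k - 1 := by linarith
  have hbeta : m0 / (n * ((n : ℝ) - l) / 2) * l = 2 * m0 / ((k - 1) * n) := by
    rw [hnl]
    field_simp
  have hmu2 : 2 * L ≤ μ := hμ
  refine ⟨hμ1, hl1, hsum, ?_, by linarith, ?_, by positivity, ?_, ?_, ?_, ?_⟩
  · have : ((n * (l - 1) + m1 : ℕ) : ℝ) < ((n.choose 2 : ℕ) : ℝ) := by
      rw [Nat.cast_add, Nat.cast_mul, Nat.cast_sub hl1, Nat.cast_choose_two]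
      push_cast
      have h1 := par_a hkL8 hL hlr hnr hn1r hmu2
      linarith
    exact_mod_cast this
  · rw [div_le_div_iff₀ hkpos (by norm_num)]
    linarith
  · -- the exponent
    unfold lamb
    rw [Nat.cast_choose_two]
    set A : ℝ := (n : ℝ) * (n - 1) / 2 - m1 - n * ((l : ℝ) - 1) / 2 with hA
    have hAge : n * k * μ * (k - 2) / 2 ≤ A := by
      have h1 : n * ((n : ℝ) - l) / 2 - (k * L - 2 * k) * n ≤ A := by
        rw [hA]; linarith
      exact par_b hkpos hn0 hmu2 hnl hlr h1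
    have hA0 : 0 < n * k * μ * (k - 2) / 2 := by
      have : 0 < k - 2 := by linarith
      positivity
    have hAp : 0 < A := lt_of_lt_of_le hA0 hAge
    have hnum : (m1 : ℝ) * (n * (n - 1) / 2) ≤ k * (L - 2) * n * (n ^ 2 / 2) := by
      apply mul_le_mul
      · linarith
      · have := sq_nonneg (n : ℝ)
        have e : (n : ℝ) ^ 2 / 2 - n * (n - 1) / 2 = n / 2 := by ring
        linarith
      · apply div_nonneg _ (by norm_num); apply mul_nonneg hn0.le; linarith
      · apply mul_nonneg _ hn0.le; apply mul_nonneg hkpos.le; linarith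
    have hstep : (m1 : ℝ) * (n * (n - 1) / 2) / (2 * A ^ 2) * μ ≤ k * (L - 2) / (k - 2) ^ 2 := by
      have hk2 : 0 < k - 2 := by linarith
      calc (m1 : ℝ) * (n * (n - 1) / 2) / (2 * A ^ 2) * μ
          ≤ (k * (L - 2) * n * (n ^ 2 / 2)) / (2 * (n * k * μ * (k - 2) / 2) ^ 2) * μ := by
            apply mul_le_mul_of_nonneg_right _ (by positivity)
            apply div_le_div₀
            · apply mul_nonneg _ (by positivity)
              apply mul_nonneg _ hn0.le
              apply mul_nonneg hkpos.le; linarith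
            · exact hnum
            · positivity
            · apply mul_le_mul_of_nonneg_left _ (by norm_num)
              exact pow_le_pow_left₀ hA0.le hAge 2
        _ = k * (L - 2) / (k - 2) ^ 2 := by
            rw [hnr, hlr]
            field_simp
    have hfin := par_c hkL8 hL
    linarith
  · rw [hbeta]
    exact par_d hkL8 hL hn1r hm0r hm1ge
  · rw [hbeta]
    exact par_e hkL8 hL hn1r hm0r hm1le
  · have h1 : (2 : ℝ) ^ (K + 1) ≤ exp k := by
      have h2 : (2 : ℝ) ≤ exp 1 := by linarith [Real.exp_one_gt_d9]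
      have h3 : exp k = exp 1 ^ (K + 1) := by
        rw [← Real.exp_nat_mul, hk]; push_cast; ring_nf
      rw [h3]
      exact pow_le_pow_left₀ (by norm_num) h2 _
    have h4 : k ^ 2 ≤ 2 * exp k := by
      have := Real.quadratic_le_exp_of_nonneg hkpos.le
      nlinarith
    have h5 : exp (-(l : ℝ)) ≤ exp (-(2 * k)) := by
      apply Real.exp_le_exp.2
      rw [hlr]
      nlinarith
    have h6 : exp (-(2 * k)) = exp (-k) * exp (-k) := by rw [← Real.exp_add]; ring_nf
    have h7 : exp k * exp (-k) = 1 := by rw [← Real.exp_add]; simp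
    have h8 : exp (-k) ≤ 1 / 100 := by
      rw [Real.exp_neg, ← one_div]
      apply one_div_le_one_div_of_le (by norm_num)
      linarith [Real.add_one_le_exp k]
    calc ((2 : ℝ) ^ (K + 1) + k ^ 2) * exp (-(l : ℝ)) ≤ (3 * exp k) * (exp (-k) * exp (-k)) := by
          rw [← h6]
          apply mul_le_mul _ h5 (exp_pos _).le (by positivity)
          linarith
      _ = 3 * exp (-k) := by
          have : (3 * exp k) * (exp (-k) * exp (-k)) = 3 * (exp k * exp (-k)) * exp (-k) := by ring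
          rw [this, h7]; ring
      _ ≤ 1 / 2 := by linarith

end

end Pool.Agent.W852.BL
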