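import Pool.Agent.W852.BL.Det

/-!
# The planted model: union bounds
-/

set_option autoImplicit false

namespace Pool.Agent.W852.BL

open Finset Real
open scoped Classical

noncomputable section

theorem pr_avd_succ {Ω : Type} [Fintype Ω] {N : ℕ} (hN : Fintype.card Ω = N) {X : ℕ → Finset Ω}
    (hX : Antitone X) {m : ℕ} (hm : m < N) :
    pr (fun e : Fin N ≃ Ω => e ∈ avd X (m + 1)) =
      pr (fun e : Fin N ≃ Ω => e ∈ avd X m) * (1 - ((X m).card : ℝ) / ((N : ℝ) - m)) := by
  rw [pr_avd hN hX (by omega), pr_avd hN hX (by omega), prod_range_succ]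

theorem pr_plant {Ω : Type} [Fintype Ω] {N : ℕ} (hN : Fintype.card Ω = N) (A B : Finset Ω)
    (hAB : Disjoint A B) {m0 m : ℕ} (hm0 : m0 ≤ m) (hm : A.card + m < N) :
    pr (fun e : Fin N ≃ Ω => e ∈ avd (fun i => if i < m0 then A ∪ B else A) m) ≤
      (∏ i ∈ range m, (1 - (A.card : ℝ) / ((N : ℝ) - i))) *
        exp (-(m0 * (B.card : ℝ) / ((N : ℝ) - A.card))) := by
  have hmr : (A.card : ℝ) + m < N := by exact_mod_cast hm
  have hA0 : (0 : ℝ) ≤ A.card := by positivity
  have hB0 : (0 : ℝ) ≤ B.card := by positivity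
  set X : ℕ → Finset Ω := fun i => if i < m0 then A ∪ B else A with hX
  have hanti : Antitone X := by
    intro i j hij
    rw [hX]
    simp only
    split_ifs with h1 h2
    · exact le_rfl
    · omega
    · exact subset_union_left
    · exact le_rfl
  have key : ∀ t : ℕ, t ≤ m → pr (fun e : Fin N ≃ Ω => e ∈ avd X t) ≤
      (∏ i ∈ range t, (1 - (A.card : ℝ) / ((N : ℝ) - i))) *
        exp (-(((min t m0 : ℕ) : ℝ) * (B.card : ℝ) / ((N : ℝ) - A.card))) := by
    intro t
    induction t with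
    | zero =>
      intro _
      rw [pr_avd_zero hN]
      simp
    | succ t ih =>
      intro ht
      have ht' : (t : ℝ) + 1 ≤ m := by exact_mod_cast ht
      have ih := ih (by omega)
      rw [pr_avd_succ hN hanti (by omega), prod_range_succ]
      have hNt : 0 < (N : ℝ) - t := by linarith
      have hNA : 0 < (N : ℝ) - t - A.card := by linarith
      have hfac : 0 < 1 - (A.card : ℝ) / ((N : ℝ) - t) := by
        rw [sub_pos, div_lt_one hNt]; linarith
      have hprod : 0 ≤ ∏ i ∈ range t, (1 - (A.card : ℝ) / ((N : ℝ) - i)) := by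
        refine prod_nonneg fun i hi => ?_
        rw [mem_range] at hi
        have hi' : (i : ℝ) < t := by exact_mod_cast hi
        rw [sub_nonneg, div_le_one (by linarith)]
        linarith
      by_cases hlt : t < m0
      · have e1 : (X t).card = A.card + B.card := by
          rw [hX]; simp only; rw [if_pos hlt, card_union_of_disjoint hAB]
        rw [e1]
        push_cast
        have hmin : (min (t + 1) m0 : ℕ) = t + 1 := by omega
        have hmin' : (min t m0 : ℕ) = t := by omega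
        rw [hmin'] at ih
        have hmin2 : (((min (t + 1) m0 : ℕ)) : ℝ) = (t : ℝ) + 1 := by rw [hmin]; push_cast; ring
        push_cast at hmin2
        rw [hmin2]
        -- the new factor
        have hnew : 1 - ((A.card : ℝ) + B.card) / ((N : ℝ) - t) ≤
            (1 - (A.card : ℝ) / ((N : ℝ) - t)) * exp (-((B.card : ℝ) / ((N : ℝ) - A.card))) := by
          have e2 : 1 - ((A.card : ℝ) + B.card) / ((N : ℝ) - t) =
              (1 - (A.card : ℝ) / ((N : ℝ) - t)) * (1 - (B.card : ℝ) / ((N : ℝ) - t - A.card)) := by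
            field_simp
            ring
          rw [e2]
          apply mul_le_mul_of_nonneg_left _ hfac.le
          have h3 := Real.add_one_le_exp (-((B.card : ℝ) / ((N : ℝ) - A.card)))
          have h4 : (B.card : ℝ) / ((N : ℝ) - A.card) ≤ (B.card : ℝ) / ((N : ℝ) - t - A.card) := by
            apply div_le_div_of_nonneg_left hB0 hNA
            have : (0 : ℝ) ≤ t := by positivity
            linarith
          linarith
        have hpr0 := pr_nonneg (fun e : Fin N ≃ Ω => e ∈ avd X t)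
        calc _ ≤ pr (fun e : Fin N ≃ Ω => e ∈ avd X t) *
              ((1 - (A.card : ℝ) / ((N : ℝ) - t)) * exp (-((B.card : ℝ) / ((N : ℝ) - A.card)))) :=
              mul_le_mul_of_nonneg_left hnew hpr0
          _ ≤ ((∏ i ∈ range t, (1 - (A.card : ℝ) / ((N : ℝ) - i))) *
                exp (-((t : ℝ) * (B.card : ℝ) / ((N : ℝ) - A.card)))) *
              ((1 - (A.card : ℝ) / ((N : ℝ) - t)) * exp (-((B.card : ℝ) / ((N : ℝ) - A.card)))) := by
              apply mul_le_mul_of_nonneg_right ih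
              exact mul_nonneg hfac.le (exp_pos _).le
          _ = _ := by
              have e3 : -((((t : ℝ) + 1) * (B.card : ℝ)) / ((N : ℝ) - A.card)) =
                  -((t : ℝ) * (B.card : ℝ) / ((N : ℝ) - A.card)) +
                    -((B.card : ℝ) / ((N : ℝ) - A.card)) := by ring
              rw [e3, Real.exp_add]
              ring
      · have e1 : (X t).card = A.card := by
          rw [hX]; simp only; rw [if_neg hlt]
        rw [e1]
        have hmin : (min (t + 1) m0 : ℕ) = m0 := by omega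
        have hmin' : (min t m0 : ℕ) = m0 := by omega
        rw [hmin'] at ih
        rw [hmin]
        calc _ ≤ ((∏ i ∈ range t, (1 - (A.card : ℝ) / ((N : ℝ) - i))) *
              exp (-((m0 : ℝ) * (B.card : ℝ) / ((N : ℝ) - A.card)))) *
              (1 - (A.card : ℝ) / ((N : ℝ) - t)) := mul_le_mul_of_nonneg_right ih hfac.le
          _ = _ := by ring
  have h := key m le_rfl
  rwa [min_eq_right hm0] at h

theorem pr_plant' {Ω : Type} [Fintype Ω] {N : ℕ} (hN : Fintype.card Ω = N) (A B : Finset Ω)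
    (hAB : Disjoint A B) {m0 m : ℕ} (hm0 : m0 ≤ m) (hm : A.card + m < N) :
    pr (fun e : Fin N ≃ Ω => e ∈ avd (fun _ => A) m ∧ e ∈ avd (fun _ => B) m0) ≤
      (∏ i ∈ range m, (1 - (A.card : ℝ) / ((N : ℝ) - i))) *
        exp (-(m0 * (B.card : ℝ) / ((N : ℝ) - A.card))) := by
  refine le_trans (pr_mono ?_) (pr_plant hN A B hAB hm0 hm)
  rintro e ⟨g1, g2⟩
  rw [mem_avd] at g1 g2 ⊢
  intro i hi
  split_ifs with h
  · rw [mem_union]
    exact fun hc => hc.elim (g1 i hi) (g2 i h)
  · exact g1 i hi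

/-- the pairs given by a relation -/
def PX {n : ℕ} (r : Fin n → Fin n → Prop) : Finset (Om n) :=
  univ.filter (fun e => ∃ v w, e.val = s(v, w) ∧ r v w)

theorem mem_PX {n : ℕ} {r : Fin n → Fin n → Prop} {e : Om n} :
    e ∈ PX r ↔ ∃ v w, e.val = s(v, w) ∧ r v w := by simp [PX]

theorem card_PX {n : ℕ} {r : Fin n → Fin n → Prop} (h1 : ∀ v w, r v w → v ≠ w)
    (h2 : ∀ v w, r v w → ¬ r w v) :
    (univ.filter (fun p : Fin n × Fin n => r p.1 p.2)).card ≤ (PX r).card := by
  have h3 : (univ.filter (fun p : Fin n × Fin n => r p.1 p.2)).image (fun p => s(p.1, p.2)) ⊆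
      (PX r).map (Function.Embedding.subtype _) := by
    intro e he
    rw [mem_image] at he
    obtain ⟨⟨v, w⟩, hp, rfl⟩ := he
    rw [mem_filter] at hp
    rw [mem_map]
    refine ⟨⟨s(v, w), ?_⟩, ?_, rfl⟩
    · rw [SimpleGraph.mem_edgeSet, SimpleGraph.top_adj]; exact h1 _ _ hp.2
    · rw [mem_PX]; exact ⟨v, w, rfl, hp.2⟩
  have h4 := card_le_card h3
  rw [card_map, card_image_of_injOn] at h4
  · exact h4
  · intro p hp q hq h
    simp only [coe_filter, mem_univ, true_and, Set.mem_ofPred_eq] at hp hq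
    simp only [Sym2.eq_iff] at h
    rcases h with ⟨a, b⟩ | ⟨a, b⟩
    · exact Prod.ext a b
    · exfalso
      apply h2 _ _ hp
      rw [a, b]; exact hq

theorem disj_PX {n K : ℕ} {σ : Fin n → Fin (K + 1)} {r : Fin n → Fin n → Prop}
    (h : ∀ v w, r v w → σ v ≠ σ w) : Disjoint (Fm σ) (PX r) := by
  rw [disjoint_left]
  intro e he he'
  rw [mem_PX] at he'
  obtain ⟨v, w, hvw, hr⟩ := he'
  rw [mem_Fm, hvw, Sym2.map_mk, Sym2.mk_isDiag_iff] at he
  exact h v w hr he

/-- the bound for a single relation -/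
theorem pr_rel {n K l m0 m : ℕ} {σ : Fin n → Fin (K + 1)} (hn : n = (K + 1) * l)
    (hσ : σ ∈ Bal n K l) (hl : 1 ≤ l) (hm0 : m0 ≤ m) (hm : n * (l - 1) + m < n.choose 2)
    {r : Fin n → Fin n → Prop} (h1 : ∀ v w, r v w → σ v ≠ σ w) (h2 : ∀ v w, r v w → ¬ r w v)
    {x : ℝ} (hx : x ≤ (univ.filter (fun p : Fin n × Fin n => r p.1 p.2)).card) :
    pr (fun e : Fin (n.choose 2) ≃ Om n => e ∈ avd (fun _ => Fm σ) m ∧
      e ∈ avd (fun _ => PX r) m0) ≤
      P1 n l m * exp (-(m0 / (n * ((n : ℝ) - l) / 2) * x)) := by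
  have hl' : (1 : ℝ) ≤ l := by exact_mod_cast hl
  have hF := card_Fm_Bal hn hσ
  have hFm : (Fm σ).card + m < n.choose 2 := by
    have h3 : ((Fm σ).card : ℝ) ≤ ((n * (l - 1) : ℕ) : ℝ) := by
      rw [hF, Nat.cast_mul, Nat.cast_sub hl]
      push_cast
      have : 0 ≤ (n : ℝ) * ((l : ℝ) - 1) := mul_nonneg (by positivity) (by linarith)
      linarith
    have h4 : (Fm σ).card ≤ n * (l - 1) := by exact_mod_cast h3
    omega
  have h5 := pr_plant' (card_Om n) (Fm σ) (PX r) (disj_PX h1) hm0 hFm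
  have h6 : ∏ i ∈ range m, (1 - ((Fm σ).card : ℝ) / (((n.choose 2 : ℕ) : ℝ) - i)) = P1 n l m := by
    unfold P1; rw [hF]
  rw [h6] at h5
  have hP0 : 0 ≤ P1 n l m := by
    rw [← pr_proper hn hσ (m := m) (by omega)]; exact pr_nonneg _
  have hNF : ((n.choose 2 : ℕ) : ℝ) - (Fm σ).card = n * ((n : ℝ) - l) / 2 := by
    rw [hF, Nat.cast_choose_two]; ring
  have hNFpos : 0 < ((n.choose 2 : ℕ) : ℝ) - (Fm σ).card := by
    have : (((Fm σ).card + m : ℕ) : ℝ) < ((n.choose 2 : ℕ) : ℝ) := by exact_mod_cast hFm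
    push_cast at this
    have h0 : (0 : ℝ) ≤ m := by positivity
    linarith
  have hxc : x ≤ (PX r).card := by
    refine hx.trans ?_
    exact_mod_cast card_PX (fun v w h => fun hvw => h1 v w h (by rw [hvw])) h2
  refine h5.trans ?_
  · apply mul_le_mul_of_nonneg_left _ hP0
    apply Real.exp_le_exp.2
    rw [hNF] at hNFpos ⊢
    have : (m0 : ℝ) / (n * ((n : ℝ) - l) / 2) * x ≤ m0 * ((PX r).card : ℝ) / (n * ((n : ℝ) - l) / 2) := by
      rw [div_mul_eq_mul_div]
      apply div_le_div_of_nonneg_right _ hNFpos.le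
      exact mul_le_mul_of_nonneg_left hxc (by positivity)
    linarith

end

end Pool.Agent.W852.BL
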