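import Pool.Agent.W852.BL.Tab
import Pool.Agent.W852.BL.Ord

/-!
# The second moment of the number of balanced proper colourings
-/

set_option autoImplicit false

namespace Pool.Agent.W852.BL

open Finset Real
open scoped Classical

noncomputable section

theorem factorial_le {l : ℕ} (hl : 1 ≤ l) : (l.factorial : ℝ) ≤ exp 1 * √l * ((l : ℝ) / exp 1) ^ l := by
  obtain ⟨l', rfl⟩ : ∃ l', l = l' + 1 := ⟨l - 1, by omega⟩
  have h1 : Stirling.stirlingSeq (l' + 1) ≤ Stirling.stirlingSeq 1 :=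
    Stirling.stirlingSeq'_antitone (Nat.zero_le l')
  rw [Stirling.stirlingSeq_one, Stirling.stirlingSeq] at h1
  have hp : (0 : ℝ) < ((l' + 1 : ℕ) : ℝ) := by positivity
  have h2 : 0 < √(2 * ((l' + 1 : ℕ) : ℝ)) * (((l' + 1 : ℕ) : ℝ) / exp 1) ^ (l' + 1) := by
    have := Real.sqrt_pos.2 (by positivity : (0 : ℝ) < 2 * ((l' + 1 : ℕ) : ℝ))
    positivity
  rw [div_le_iff₀ h2] at h1
  refine h1.trans (le_of_eq ?_)
  rw [Real.sqrt_mul (by norm_num)]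
  have : √(2 : ℝ) ≠ 0 := by positivity
  field_simp

/-- the constant of the second moment bound -/
def CC (K : ℕ) (δ : ℝ) : ℝ :=
  exp 1 ^ (2 * (K + 1)) * ((K : ℝ) + 1) ^ K * cw δ ^ (2 * K + 1) * (cw δ * cg (δ / 2)) ^ (K ^ 2)

theorem CC_pos (K : ℕ) {δ : ℝ} (hδ : 0 < δ) : 0 < CC K δ := by
  unfold CC
  have h1 := cw_pos δ
  have h2 : 0 < cg (δ / 2) := by unfold cg; positivity
  positivity

theorem sum_exp_le {n K l μ : ℕ} (hl : l = (K + 1) * μ) (hn : n = (K + 1) * l) (hμ : 1 ≤ μ)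
    {δ lam : ℝ} (hK : 1 ≤ log ((K : ℝ) + 1)) (h14 : (log ((K : ℝ) + 1) - 1) / ((K : ℝ) + 1) ≤ 1 / 14)
    (hδ : 0 < δ) (hlam : lam * μ + δ ≤ (log ((K : ℝ) + 1) - 1) / ((K : ℝ) + 1))
    {σ : Fin n → Fin (K + 1)} (hσ : σ ∈ Bal n K l) :
    ∑ τ ∈ Bal n K l, exp (lam * Dv μ σ τ) ≤ CC K δ * (Bal n K l).card := by
  have hμ0 : (0 : ℝ) < μ := by exact_mod_cast hμ
  have hsμ := Real.sqrt_pos.2 hμ0
  have hl1 : 1 ≤ l := by rw [hl]; exact Nat.mul_pos (by omega) hμ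
  have hn1 : 1 ≤ n := by rw [hn]; exact Nat.mul_pos (by omega) hl1
  have hl0 : (0 : ℝ) < l := by exact_mod_cast hl1
  have hn0 : (0 : ℝ) < n := by exact_mod_cast hn1
  have hlr : (l : ℝ) = ((K : ℝ) + 1) * μ := by rw [hl]; push_cast; ring
  have hnr : (n : ℝ) = ((K : ℝ) + 1) ^ 2 * μ := by rw [hn, hl]; push_cast; ring
  have hK0 : (0 : ℝ) < (K : ℝ) + 1 := by positivity
  set S := ∑ T ∈ tbl K l, ∏ i, ∏ j, wt μ lam (T i j) with hS
  have hSb : S ≤ (cw δ / √μ) ^ (2 * K + 1) * (cw δ * cg (δ / 2)) ^ (K ^ 2) := by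
    apply tbl_sum
    · exact wt_nonneg μ lam
    · intro x hx
      refine wt_max hμ (K := (K : ℝ) + 1) ?_ hK h14 hδ hlam
      rw [← hlr]; exact_mod_cast hx
    · exact wt_sum hμ hK h14 hδ hlam l (by rw [hlr])
  have hS0 : 0 ≤ S := sum_nonneg fun T _ => prod_nonneg fun i _ => prod_nonneg fun j _ => wt_nonneg _ _ _
  have hB := card_Bal (n := n) (K := K) (l := l) hn
  have hfl : (0 : ℝ) < (l.factorial : ℝ) ^ (K + 1) := by positivity
  rw [sum_Bal hl hn hμ lam hσ, ← hS]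
  -- multiply by (l!)^(K+1)
  rw [← mul_le_mul_iff_left₀ hfl]
  have e1 : CC K δ * (Bal n K l).card * (l.factorial : ℝ) ^ (K + 1) = CC K δ * n.factorial := by
    rw [mul_assoc, hB]
  rw [e1]
  -- Stirling
  have h1 : (l.factorial : ℝ) ^ (K + 1) * (l.factorial : ℝ) ^ (K + 1) ≤
      exp 1 ^ (2 * (K + 1)) * (l : ℝ) ^ (K + 1) * ((l : ℝ) / exp 1) ^ (2 * n) := by
    have hf := factorial_le hl1
    have h2 : (l.factorial : ℝ) ^ (K + 1) * (l.factorial : ℝ) ^ (K + 1) ≤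
        (exp 1 * √l * ((l : ℝ) / exp 1) ^ l) ^ (K + 1) * (exp 1 * √l * ((l : ℝ) / exp 1) ^ l) ^ (K + 1) := by
      apply mul_le_mul <;> first | positivity | skip
      · exact pow_le_pow_left₀ (by positivity) hf _
      · exact pow_le_pow_left₀ (by positivity) hf _
    refine h2.trans (le_of_eq ?_)
    have h3 : √(l : ℝ) ^ (K + 1) * √(l : ℝ) ^ (K + 1) = (l : ℝ) ^ (K + 1) := by
      rw [← mul_pow, Real.mul_self_sqrt hl0.le]
    have h4 : (((l : ℝ) / exp 1) ^ l) ^ (K + 1) * (((l : ℝ) / exp 1) ^ l) ^ (K + 1) =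
        ((l : ℝ) / exp 1) ^ (2 * n) := by
      rw [← pow_mul, ← pow_add]
      congr 1
      rw [hn]; ring
    rw [mul_pow, mul_pow]
    calc _ = (exp 1 ^ (K + 1) * exp 1 ^ (K + 1)) * (√(l : ℝ) ^ (K + 1) * √(l : ℝ) ^ (K + 1)) *
          ((((l : ℝ) / exp 1) ^ l) ^ (K + 1) * (((l : ℝ) / exp 1) ^ l) ^ (K + 1)) := by ring
      _ = _ := by rw [h3, h4, ← pow_add]; ring
  have h5 : ((l : ℝ) / exp 1) ^ (2 * n) * (exp n / (μ : ℝ) ^ n) = ((n : ℝ) / exp 1) ^ n := by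
    have e2 : exp (n : ℝ) = exp 1 ^ n := by rw [← Real.exp_nat_mul, mul_one]
    rw [pow_mul, e2, ← div_pow, ← mul_pow]
    congr 1
    rw [hlr, hnr]
    field_simp
  have h6 : √(n : ℝ) * ((n : ℝ) / exp 1) ^ n ≤ n.factorial := by
    refine le_trans ?_ (Stirling.le_factorial_stirling n)
    apply mul_le_mul_of_nonneg_right _ (by positivity)
    apply Real.sqrt_le_sqrt
    have := Real.pi_gt_three
    nlinarith
  have hsn : √(n : ℝ) = ((K : ℝ) + 1) * √μ := by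
    rw [hnr, Real.sqrt_mul (by positivity), Real.sqrt_sq hK0.le]
  have h7 : ((n : ℝ) / exp 1) ^ n ≤ n.factorial / (((K : ℝ) + 1) * √μ) := by
    rw [le_div_iff₀ (by positivity), ← hsn, mul_comm]; exact h6
  have h8 : (l : ℝ) ^ (K + 1) / (((K : ℝ) + 1) * √μ) * (1 / √μ) ^ (2 * K + 1) = ((K : ℝ) + 1) ^ K := by
    have e3 : (μ : ℝ) ^ (K + 1) = √μ ^ (2 * K + 1) * √μ := by
      rw [← pow_succ, show 2 * K + 1 + 1 = 2 * (K + 1) by ring, pow_mul, Real.sq_sqrt hμ0.le]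
    rw [hlr, mul_pow, e3, one_div, inv_pow, pow_succ ((K : ℝ) + 1) K]
    field_simp
  calc (l.factorial : ℝ) ^ (K + 1) * (exp n / (μ : ℝ) ^ n) * S * (l.factorial : ℝ) ^ (K + 1)
      = ((l.factorial : ℝ) ^ (K + 1) * (l.factorial : ℝ) ^ (K + 1)) * (exp n / (μ : ℝ) ^ n) * S := by
        ring
    _ ≤ (exp 1 ^ (2 * (K + 1)) * (l : ℝ) ^ (K + 1) * ((l : ℝ) / exp 1) ^ (2 * n)) *
          (exp n / (μ : ℝ) ^ n) * S := by
        apply mul_le_mul_of_nonneg_right _ hS0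
        apply mul_le_mul_of_nonneg_right h1 (by positivity)
    _ = exp 1 ^ (2 * (K + 1)) * (l : ℝ) ^ (K + 1) * (((l : ℝ) / exp 1) ^ (2 * n) *
          (exp n / (μ : ℝ) ^ n)) * S := by ring
    _ = exp 1 ^ (2 * (K + 1)) * (l : ℝ) ^ (K + 1) * ((n : ℝ) / exp 1) ^ n * S := by rw [h5]
    _ ≤ exp 1 ^ (2 * (K + 1)) * (l : ℝ) ^ (K + 1) * (n.factorial / (((K : ℝ) + 1) * √μ)) *
          ((cw δ / √μ) ^ (2 * K + 1) * (cw δ * cg (δ / 2)) ^ (K ^ 2)) := by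
        apply mul_le_mul _ hSb hS0 (by positivity)
        apply mul_le_mul_of_nonneg_left h7 (by positivity)
    _ = exp 1 ^ (2 * (K + 1)) * ((l : ℝ) ^ (K + 1) / (((K : ℝ) + 1) * √μ) * (1 / √μ) ^ (2 * K + 1)) *
          cw δ ^ (2 * K + 1) * (cw δ * cg (δ / 2)) ^ (K ^ 2) * n.factorial := by
        rw [div_eq_mul_one_div (cw δ) (√μ), mul_pow]
        ring
    _ = CC K δ * n.factorial := by
        rw [h8]; unfold CC; ring

end

end Pool.Agent.W852.BL
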