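import Pool.Agent.W852.BL.Mult
import Pool.Agent.W852.BL.Ent

/-!
# The sum over the contingency tables
-/

set_option autoImplicit false

namespace Pool.Agent.W852.BL

open Finset Real

noncomputable section

/-- square tables with all row and column sums `l` -/
def tbl (K l : ℕ) : Finset (Fin (K + 1) → Fin (K + 1) → ℕ) :=
  (Fintype.piFinset fun _ => Fintype.piFinset fun _ => range (l + 1)).filter
    (fun T => (∀ i, ∑ j, T i j = l) ∧ ∀ j, ∑ i, T i j = l)

theorem mem_tbl {K l : ℕ} {T : Fin (K + 1) → Fin (K + 1) → ℕ} :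
    T ∈ tbl K l ↔ (∀ i, ∑ j, T i j = l) ∧ ∀ j, ∑ i, T i j = l := by
  unfold tbl
  rw [mem_filter]
  constructor
  · exact fun h => h.2
  · intro h
    refine ⟨?_, h⟩
    rw [Fintype.mem_piFinset]
    intro i
    rw [Fintype.mem_piFinset]
    intro j
    rw [mem_range]
    have := h.1 i
    have h2 : T i j ≤ ∑ j, T i j := single_le_sum (f := fun j => T i j) (fun _ _ => Nat.zero_le _) (mem_univ j)
    omega

theorem tbl_le {K l : ℕ} {T : Fin (K + 1) → Fin (K + 1) → ℕ} (h : T ∈ tbl K l) (i j : Fin (K + 1)) :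
    T i j ≤ l := by
  rw [mem_tbl] at h
  rw [← h.1 i]
  exact single_le_sum (f := fun j => T i j) (fun _ _ => Nat.zero_le _) (mem_univ j)

theorem res_inj {K l : ℕ} : Set.InjOn
    (fun (T : Fin (K + 1) → Fin (K + 1) → ℕ) (i j : Fin K) => T i.castSucc j.castSucc)
    (tbl K l : Set (Fin (K + 1) → Fin (K + 1) → ℕ)) := by
  intro T hT T' hT' h
  have h : ∀ i j : Fin K, T i.castSucc j.castSucc = T' i.castSucc j.castSucc :=
    fun i j => congrFun (congrFun h i) j
  rw [mem_coe, mem_tbl] at hT hT'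
  obtain ⟨r, c⟩ := hT
  obtain ⟨r', c'⟩ := hT'
  have h1 : ∀ i : Fin K, T i.castSucc (Fin.last K) = T' i.castSucc (Fin.last K) := by
    intro i
    have a := r i.castSucc
    have b := r' i.castSucc
    rw [Fin.sum_univ_castSucc] at a b
    have : ∑ j : Fin K, T i.castSucc j.castSucc = ∑ j : Fin K, T' i.castSucc j.castSucc :=
      sum_congr rfl fun j _ => h i j
    omega
  have h2 : ∀ j : Fin K, T (Fin.last K) j.castSucc = T' (Fin.last K) j.castSucc := by
    intro j
    have a := c j.castSucc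
    have b := c' j.castSucc
    rw [Fin.sum_univ_castSucc] at a b
    have : ∑ i : Fin K, T i.castSucc j.castSucc = ∑ i : Fin K, T' i.castSucc j.castSucc :=
      sum_congr rfl fun i _ => h i j
    omega
  have h3 : T (Fin.last K) (Fin.last K) = T' (Fin.last K) (Fin.last K) := by
    have a := c (Fin.last K)
    have b := c' (Fin.last K)
    rw [Fin.sum_univ_castSucc] at a b
    have : ∑ i : Fin K, T i.castSucc (Fin.last K) = ∑ i : Fin K, T' i.castSucc (Fin.last K) :=
      sum_congr rfl fun i _ => h1 i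
    omega
  funext i j
  refine Fin.lastCases ?_ (fun i => ?_) i
  · refine Fin.lastCases ?_ (fun j => ?_) j
    · exact h3
    · exact h2 j
  · refine Fin.lastCases ?_ (fun j => ?_) j
    · exact h1 i
    · exact h i j

theorem tbl_sum {K l : ℕ} (w : ℕ → ℝ) (M S : ℝ) (hw : ∀ x, 0 ≤ w x) (hM : ∀ x ≤ l, w x ≤ M)
    (hS : ∑ x ∈ range (l + 1), w x ≤ S) :
    ∑ T ∈ tbl K l, ∏ i, ∏ j, w (T i j) ≤ M ^ (2 * K + 1) * S ^ (K ^ 2) := by
  have hM0 : 0 ≤ M := (hw 0).trans (hM 0 (Nat.zero_le _))
  have hS0 : 0 ≤ ∑ x ∈ range (l + 1), w x := sum_nonneg fun x _ => hw x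
  have hterm : ∀ T ∈ tbl K l, ∏ i, ∏ j, w (T i j) ≤
      M ^ (2 * K + 1) * ∏ i : Fin K, ∏ j : Fin K, w (T i.castSucc j.castSucc) := by
    intro T hT
    rw [Fin.prod_univ_castSucc]
    have h1 : ∏ i : Fin K, ∏ j : Fin (K + 1), w (T i.castSucc j) ≤
        M ^ K * ∏ i : Fin K, ∏ j : Fin K, w (T i.castSucc j.castSucc) := by
      have : M ^ K = ∏ _i : Fin K, M := by rw [prod_const, card_univ, Fintype.card_fin]
      rw [this, ← prod_mul_distrib]
      refine prod_le_prod (fun i _ => prod_nonneg fun j _ => hw _) fun i _ => ?_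
      rw [Fin.prod_univ_castSucc, mul_comm]
      exact mul_le_mul_of_nonneg_right (hM _ (tbl_le hT _ _)) (prod_nonneg fun j _ => hw _)
    have h2 : ∏ j : Fin (K + 1), w (T (Fin.last K) j) ≤ M ^ (K + 1) := by
      have : M ^ (K + 1) = ∏ _j : Fin (K + 1), M := by rw [prod_const, card_univ, Fintype.card_fin]
      rw [this]
      exact prod_le_prod (fun j _ => hw _) fun j _ => hM _ (tbl_le hT _ _)
    calc _ ≤ (M ^ K * ∏ i : Fin K, ∏ j : Fin K, w (T i.castSucc j.castSucc)) * M ^ (K + 1) :=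
          mul_le_mul h1 h2 (prod_nonneg fun j _ => hw _)
            (mul_nonneg (pow_nonneg hM0 _) (prod_nonneg fun i _ => prod_nonneg fun j _ => hw _))
      _ = _ := by ring
  calc ∑ T ∈ tbl K l, ∏ i, ∏ j, w (T i j)
      ≤ ∑ T ∈ tbl K l, M ^ (2 * K + 1) * ∏ i : Fin K, ∏ j : Fin K, w (T i.castSucc j.castSucc) :=
        sum_le_sum hterm
    _ = M ^ (2 * K + 1) * ∑ T ∈ tbl K l, ∏ i : Fin K, ∏ j : Fin K, w (T i.castSucc j.castSucc) := by
        rw [mul_sum]
    _ ≤ M ^ (2 * K + 1) * S ^ (K ^ 2) := by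
        apply mul_le_mul_of_nonneg_left _ (pow_nonneg hM0 _)
        have e1 : ∑ T ∈ tbl K l, ∏ i : Fin K, ∏ j : Fin K, w (T i.castSucc j.castSucc) =
            ∑ A ∈ (tbl K l).image (fun (T : Fin (K + 1) → Fin (K + 1) → ℕ) (i j : Fin K) =>
              T i.castSucc j.castSucc), ∏ i, ∏ j, w (A i j) := by
          rw [sum_image (fun a ha b hb h => res_inj (mem_coe.2 ha) (mem_coe.2 hb) h)]
        rw [e1]
        calc _ ≤ ∑ A ∈ Fintype.piFinset (fun _ : Fin K => Fintype.piFinset fun _ : Fin K => range (l + 1)),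
              ∏ i, ∏ j, w (A i j) := by
              apply sum_le_sum_of_subset_of_nonneg
              · intro A hA
                rw [mem_image] at hA
                obtain ⟨T, hT, rfl⟩ := hA
                rw [Fintype.mem_piFinset]
                intro i
                rw [Fintype.mem_piFinset]
                intro j
                rw [mem_range]
                have := tbl_le hT i.castSucc j.castSucc
                change T i.castSucc j.castSucc < l + 1
                omega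
              · intro A _ _
                exact prod_nonneg fun i _ => prod_nonneg fun j _ => hw _
          _ = ∏ _i : Fin K, ∏ _j : Fin K, ∑ x ∈ range (l + 1), w x := by
              rw [← prod_univ_sum (fun _ : Fin K => Fintype.piFinset fun _ : Fin K => range (l + 1))
                (fun _ a => ∏ j, w (a j))]
              refine prod_congr rfl fun i _ => ?_
              rw [← prod_univ_sum (fun _ : Fin K => range (l + 1)) (fun _ x => w x)]
          _ ≤ S ^ (K ^ 2) := by
              rw [prod_const, prod_const, card_univ, Fintype.card_fin, ← pow_mul, sq]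
              exact pow_le_pow_left₀ hS0 hS _

/-- balanced colourings -/
def Bal (n K l : ℕ) : Finset (Fin n → Fin (K + 1)) := univ.filter (fun τ => ∀ i, cls τ i = l)

theorem mem_Bal {n K l : ℕ} {τ : Fin n → Fin (K + 1)} : τ ∈ Bal n K l ↔ ∀ i, cls τ i = l := by
  simp [Bal]

theorem card_Bal {n K l : ℕ} (hn : n = (K + 1) * l) :
    ((Bal n K l).card : ℝ) * (l.factorial : ℝ) ^ (K + 1) = (n.factorial : ℝ) := by
  have h := card_TT (ι := Unit) (κ := Fin (K + 1)) (n := n) (fun _ => ()) (fun _ _ => l) (by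
    intro i
    rw [sum_const, card_univ, Fintype.card_fin, smul_eq_mul, ← hn]
    unfold cls; simp)
  have e1 : TT (n := n) (fun _ => ()) (fun (_ : Unit) (_ : Fin (K + 1)) => l) = Bal n K l := by
    ext τ
    rw [mem_TT, mem_Bal]
    have e : ∀ i j, tab (fun _ => ()) τ i j = cls τ j := by
      intro i j; unfold tab cls; simp
    simp only [e]
    exact ⟨fun h i => h () i, fun h _ i => h i⟩
  rw [e1] at h
  simp only [univ_unique, PUnit.default_eq_unit, prod_singleton, prod_const, card_univ,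
    Fintype.card_fin] at h
  have e2 : cls (n := n) (fun _ => ()) () = n := by unfold cls; simp
  rw [e2] at h
  have h' : (Bal n K l).card * l.factorial ^ (K + 1) = n.factorial := by
    simpa using h
  exact_mod_cast h'

/-- the quadratic deviation of the contingency table -/
def Dv {n K : ℕ} (μ : ℕ) (σ τ : Fin n → Fin (K + 1)) : ℝ :=
  ∑ i, ∑ j, ((tab σ τ i j : ℝ) - μ) ^ 2

theorem sum_Bal {n K l μ : ℕ} (hl : l = (K + 1) * μ) (hn : n = (K + 1) * l) (hμ : 1 ≤ μ) (lam : ℝ)
    {σ : Fin n → Fin (K + 1)} (hσ : σ ∈ Bal n K l) :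
    ∑ τ ∈ Bal n K l, exp (lam * Dv μ σ τ) =
      (l.factorial : ℝ) ^ (K + 1) * (exp n / (μ : ℝ) ^ n) *
        ∑ T ∈ tbl K l, ∏ i, ∏ j, wt μ lam (T i j) := by
  have hμ0 : (0 : ℝ) < μ := by exact_mod_cast hμ
  rw [mem_Bal] at hσ
  rw [← sum_fiberwise_of_maps_to (g := fun τ => tab σ τ) (t := tbl K l) (by
    intro τ hτ
    rw [mem_Bal] at hτ
    rw [mem_tbl]
    exact ⟨fun i => by rw [tab_sum, hσ], fun j => by rw [tab_sum', hτ]⟩), mul_sum]
  refine sum_congr rfl fun T hT => ?_
  have hT' := mem_tbl.1 hT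
  have e1 : (Bal n K l).filter (fun τ => tab σ τ = T) = TT σ T := by
    ext τ
    rw [mem_filter, mem_TT, mem_Bal]
    constructor
    · rintro ⟨_, h⟩
      exact fun i j => by rw [h]
    · intro h
      refine ⟨fun j => ?_, ?_⟩
      · rw [← hT'.2 j, ← tab_sum' σ τ j]
        exact sum_congr rfl fun i _ => h i j
      · funext i j; exact h i j
  have e2 : ∀ τ ∈ (Bal n K l).filter (fun τ => tab σ τ = T),
      exp (lam * Dv μ σ τ) = ∏ i, ∏ j, exp (lam * ((T i j : ℝ) - μ) ^ 2) := by
    intro τ hτ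
    rw [mem_filter] at hτ
    unfold Dv
    rw [hτ.2, mul_sum, Real.exp_sum]
    refine prod_congr rfl fun i _ => ?_
    rw [mul_sum, Real.exp_sum]
  rw [sum_congr rfl e2, sum_const, e1, nsmul_eq_mul]
  have h := card_TT σ T (fun i => by rw [hT'.1, hσ])
  have h' : ((TT σ T).card : ℝ) * ∏ i, ∏ j, ((T i j).factorial : ℝ) = (l.factorial : ℝ) ^ (K + 1) := by
    have e3 : ∏ i : Fin (K + 1), (cls σ i).factorial = l.factorial ^ (K + 1) := by
      rw [prod_congr rfl (fun i _ => by rw [hσ i]), prod_const, card_univ, Fintype.card_fin]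
    rw [e3] at h
    exact_mod_cast h
  have hfac : (∏ i, ∏ j, ((T i j).factorial : ℝ)) ≠ 0 := by
    refine prod_ne_zero_iff.2 fun i _ => prod_ne_zero_iff.2 fun j _ => ?_
    positivity
  have e4 : ∏ i, ∏ j, wt μ lam (T i j) =
      (∏ i, ∏ j, exp (lam * ((T i j : ℝ) - μ) ^ 2)) / (∏ i, ∏ j, ((T i j).factorial : ℝ)) *
        ((μ : ℝ) ^ n / exp n) := by
    have e5 : ∀ i j, wt μ lam (T i j) = exp (lam * ((T i j : ℝ) - μ) ^ 2) /
        ((T i j).factorial : ℝ) * ((μ : ℝ) ^ (T i j) * exp (-μ)) := by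
      intro i j; unfold wt; ring
    simp only [e5, prod_mul_distrib, prod_div_distrib]
    congr 1
    have e6 : ∏ i : Fin (K + 1), ∏ j : Fin (K + 1), (μ : ℝ) ^ (T i j) = (μ : ℝ) ^ n := by
      simp only [prod_pow_eq_pow_sum]
      congr 1
      rw [sum_congr rfl (fun i _ => hT'.1 i), sum_const, card_univ, Fintype.card_fin, smul_eq_mul, hn]
    have e7 : ∏ _i : Fin (K + 1), ∏ _j : Fin (K + 1), exp (-(μ : ℝ)) = 1 / exp n := by
      rw [prod_const, prod_const, card_univ, Fintype.card_fin, ← pow_mul, ← Real.exp_nat_mul,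
        one_div, ← Real.exp_neg]
      congr 1
      rw [hn, hl]; push_cast; ring
    rw [e6, e7, mul_one_div]
  rw [e4, ← h']
  have h1 : exp (n : ℝ) ≠ 0 := (exp_pos _).ne'
  have h2 : (μ : ℝ) ^ n ≠ 0 := by positivity
  field_simp

end

end Pool.Agent.W852.BL
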